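import Pool.Agent.H36.GY.Defs
import Pool.Agent.H36.GX.ClsBase

/-!
# Project GY: auxiliary definitions (not used in the statement)
-/

set_option autoImplicit false

namespace Pool.Agent.H36.GY

open Pool.Agent.H66.NCL Pool.Agent.H36.OX Pool.Agent.H36.GX

universe u v w

/-- For every nonempty finite set `F` some coefficient of some entry is a unit for one member of `F` and
vanishes for the other members. -/
def IsTri {S : Type u} {Q : Type v} {D : Type w} [Monoid S] [Monoid Q] [Fintype D] [DecidableEq D]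
    (a : S →* Matrix D D (MonoidAlgebra ℤ Q)) : Prop :=
  ∀ F : Finset S, F.Nonempty → ∃ s ∈ F, ∃ (i j : D) (q : Q), IsUnit ((a s i j).coeff q) ∧
    ∀ s' ∈ F, s' ≠ s → (a s' i j).coeff q = 0

/-- The monoid `S` has a representation as in `IsTri` over a group ring of a group in `It C`. -/
def Tri (C : (G : Type u) → [Group G] → Prop) (S : Type u) [Monoid S] : Prop :=
  ∃ (Q : Type u) (_ : Group Q) (D : Type) (_ : Fintype D) (_ : DecidableEq D)
    (a : S →* Matrix D D (MonoidAlgebra ℤ Q)), It C Q ∧ IsTri a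

/-- The words `x₀ t₁ x₁ ⋯ tₙ xₙ`: the free product of the monoid `X` and the free monoid on `T`. The pairs
`(x₀, t₁)`, `(x₁, t₂)`, … are the members of `l`, and `x = xₙ`. -/
@[ext] structure PM (X : Type u) (T : Type v) where
  /-- the letters, with the elements in front of them -/
  l : List (X × T)
  /-- the last element -/
  x : X

namespace PM

variable {X : Type u} {T : Type v} [Monoid X]

/-- multiplication of words -/
protected def mul' : PM X T → PM X T → PM X T
  | p, ⟨[], y⟩ => ⟨p.l, p.x * y⟩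
  | p, ⟨a :: l, y⟩ => ⟨p.l ++ (p.x * a.1, a.2) :: l, y⟩

instance : Mul (PM X T) := ⟨PM.mul'⟩
instance : One (PM X T) := ⟨⟨[], 1⟩⟩

theorem mul_nil (p : PM X T) (y : X) : p * ⟨[], y⟩ = ⟨p.l, p.x * y⟩ := rfl
theorem mul_cons (p : PM X T) (a : X × T) (l : List (X × T)) (y : X) :
    p * ⟨a :: l, y⟩ = ⟨p.l ++ (p.x * a.1, a.2) :: l, y⟩ := rfl
theorem one_def : (1 : PM X T) = ⟨[], 1⟩ := rfl

instance : Monoid (PM X T) where
  mul_assoc p q r := by
    obtain ⟨l, x⟩ := p
    obtain ⟨m, y⟩ := q
    obtain ⟨n, z⟩ := r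
    cases m with
    | nil =>
      cases n with
      | nil =>
        show (⟨l, x * y * z⟩ : PM X T) = ⟨l, x * (y * z)⟩
        rw [mul_assoc]
      | cons c n =>
        show (⟨l ++ (x * y * c.1, c.2) :: n, z⟩ : PM X T) = ⟨l ++ (x * (y * c.1), c.2) :: n, z⟩
        rw [mul_assoc]
    | cons b m =>
      cases n with
      | nil => rfl
      | cons c n =>
        show (⟨(l ++ (x * b.1, b.2) :: m) ++ (y * c.1, c.2) :: n, z⟩ : PM X T) =
          ⟨l ++ (x * b.1, b.2) :: (m ++ (y * c.1, c.2) :: n), z⟩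
        rw [List.append_assoc, List.cons_append]
  one_mul p := by
    obtain ⟨l, x⟩ := p
    cases l with
    | nil =>
      show (⟨[], 1 * x⟩ : PM X T) = ⟨[], x⟩
      rw [one_mul]
    | cons a l =>
      show (⟨[] ++ (1 * a.1, a.2) :: l, x⟩ : PM X T) = ⟨a :: l, x⟩
      rw [one_mul, List.nil_append]
  mul_one p := by
    show (⟨p.l, p.x * 1⟩ : PM X T) = p
    rw [mul_one]

/-- the elements of `X` -/
def of (X : Type u) (T : Type v) [Monoid X] : X →* PM X T where
  toFun x := ⟨[], x⟩
  map_one' := rfl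
  map_mul' _ _ := rfl

/-- the letters -/
def tt (X : Type u) [Monoid X] {T : Type v} (t : T) : PM X T := ⟨[(1, t)], 1⟩

theorem of_mul_nil (x y : X) : of X T x * ⟨[], y⟩ = ⟨[], x * y⟩ := rfl
theorem of_mul_cons (x : X) (a : X × T) (l : List (X × T)) (y : X) :
    of X T x * ⟨a :: l, y⟩ = ⟨(x * a.1, a.2) :: l, y⟩ := rfl

theorem tt_mul (t : T) (p : PM X T) : tt X t * p = ⟨(1, t) :: p.l, p.x⟩ := by
  obtain ⟨l, x⟩ := p
  cases l with
  | nil =>
    show (⟨[(1, t)], 1 * x⟩ : PM X T) = _
    rw [one_mul]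
  | cons a l =>
    show (⟨(1, t) :: (1 * a.1, a.2) :: l, x⟩ : PM X T) = _
    rw [one_mul]

theorem eq_of (x : X) : (⟨[], x⟩ : PM X T) = of X T x := rfl
theorem eq_mul (a : X × T) (l : List (X × T)) (x : X) :
    (⟨a :: l, x⟩ : PM X T) = of X T a.1 * (tt X a.2 * ⟨l, x⟩) := by
  rw [tt_mul]
  show (⟨a :: l, x⟩ : PM X T) = ⟨(a.1 * 1, a.2) :: l, x⟩
  rw [mul_one]

/-- the homomorphism with given values on `X` and on the letters -/
def lift {M : Type w} [Monoid M] (f : X →* M) (g : T → M) : PM X T →* M where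
  toFun p := (p.l.map fun a => f a.1 * g a.2).prod * f p.x
  map_one' := by
    show ([] : List M).prod * f 1 = 1
    rw [List.prod_nil, map_one, one_mul]
  map_mul' p q := by
    obtain ⟨l, x⟩ := p
    obtain ⟨m, y⟩ := q
    cases m with
    | nil =>
      rw [mul_nil]
      show (l.map _).prod * f (x * y) = (l.map _).prod * f x * (([] : List M).prod * f y)
      rw [List.prod_nil, one_mul, map_mul, mul_assoc]
    | cons b m =>
      rw [mul_cons]
      show ((l ++ (x * b.1, b.2) :: m).map _).prod * f y = (l.map _).prod * f x *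
        (((b :: m).map _).prod * f y)
      rw [List.map_append, List.prod_append, List.map_cons, List.prod_cons, List.map_cons,
        List.prod_cons]
      simp only [map_mul, mul_assoc]

theorem lift_of {M : Type w} [Monoid M] (f : X →* M) (g : T → M) (x : X) :
    lift f g (of X T x) = f x := by
  show ([] : List M).prod * f x = f x
  rw [List.prod_nil, one_mul]

theorem lift_tt {M : Type w} [Monoid M] (f : X →* M) (g : T → M) (t : T) :
    lift f g (tt X t) = g t := by
  show ([f 1 * g t] : List M).prod * f 1 = g t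
  rw [List.prod_singleton, map_one, one_mul, mul_one]

theorem lift_nil {M : Type w} [Monoid M] (f : X →* M) (g : T → M) (x : X) :
    lift f g ⟨[], x⟩ = f x := lift_of f g x

theorem lift_cons {M : Type w} [Monoid M] (f : X →* M) (g : T → M) (a : X × T)
    (l : List (X × T)) (x : X) :
    lift f g ⟨a :: l, x⟩ = f a.1 * (g a.2 * lift f g ⟨l, x⟩) := by
  rw [eq_mul, map_mul, map_mul, lift_of, lift_tt]

end PM

/-- the data used for the representation of `FreeWreath G N Y`: commuting copies of `G` and `N` in a group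
`Q`, letters which are permuted by `N`, such that the words `g₀ t₁ g₁ ⋯` are determined by their values, a
homomorphism `π` to `N` which kills `G` and the letters, and the degree `δ` in the letters. -/
structure IsFw {G N Y Q : Type u} [Group G] [Group N] [MulAction N Y] [Group Q] (i : G →* Q)
    (j : N →* Q) (x : Bool × Y → Q) (π : Q →* N) (δ : Q →* Multiplicative ℤ) (Pos : Q → Prop) :
    Prop where
  pos : IsPos i x Pos
  comm : ∀ g n, i g * j n = j n * i g
  conj : ∀ n b y, j n * x (b, y) * (j n)⁻¹ = x (b, n • y)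
  πi : ∀ g, π (i g) = 1
  πj : ∀ n, π (j n) = n
  πx : ∀ t, π (x t) = 1
  δi : ∀ g, δ (i g) = 1
  δj : ∀ n, δ (j n) = 1
  δx : ∀ t, δ (x t) = Multiplicative.ofAdd 1

end Pool.Agent.H36.GY
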