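import Pool.Agent.H36.GY.Good

/-!
# Project GY: group rings of the groups in the class `GrClass`
-/

set_option autoImplicit false

namespace Pool.Agent.H36.GY

open Pool.Agent.H66.NCL Pool.Agent.H36.OX Pool.Agent.H36.GX

universe u

theorem GrClass.adm {A : Type u} [Ring A] {G : Type u} [Group G] (h : GrClass G) : Adm A G := by
  induction h with
  | solv G h => exact (GX.GrClass.solv G h).adm
  | sub G H f hf _ ih =>
    intro C hC hG
    refine (ih C hC hG).anti ?_
    rintro G' _ (h' | ⟨_, g, hg⟩)
    · exact Or.inl h'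
    · exact Or.inr ⟨PUnit.unit, f.comp g, hf.comp hg⟩
  | fin G H _ ih =>
    intro C hC hG
    refine (Good.vi (fun G' _ h' => Or.inl (hC G' h')) (ih C hC hG)).anti ?_
    rintro G' _ (h' | ⟨_, g, hg⟩)
    · exact ⟨⊤, inferInstance, G', inferInstance, (⊤ : Subgroup G').subtype,
        It.base _ (Or.inl h'), Subtype.val_injective⟩
    · have hfi : (H.comap g).FiniteIndex := by
        rw [Subgroup.finiteIndex_iff, Subgroup.index_comap]
        exact (Subgroup.instFiniteIndex_subgroupOf H g.range).index_ne_zero
      refine ⟨H.comap g, hfi, H, inferInstance,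
        g.subgroupComap H, It.base _ (Or.inr ⟨PUnit.unit, MonoidHom.id H, fun _ _ hab => hab⟩), ?_⟩
      intro a b hab
      exact Subtype.ext (hg (congrArg Subtype.val hab))
  | prod V E G _ ih =>
    intro C hC hG
    have h1 := Adm.family hC hG G ih
    refine (Good.vi (fun G' _ h' => Or.inl (hC G' h')) h1).anti ?_
    rintro G' _ (h' | ⟨_, g, hg⟩)
    · exact ⟨⊤, inferInstance, G', inferInstance, (⊤ : Subgroup G').subtype,
        It.base _ (Or.inl h'), Subtype.val_injective⟩
    · refine ⟨⊤, inferInstance, GraphProduct E G, inferInstance,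
        g.comp (⊤ : Subgroup G').subtype, It.prod V E G fun v => It.base _
          (Or.inr ⟨v, MonoidHom.id _, fun _ _ hab => hab⟩), hg.comp Subtype.val_injective⟩
  | wr G N Y _ hN ih =>
    intro C hC hG
    have hC' : ∀ (G' : Type u) [Group G'], TFSolv G' → Add C (fun _ : PUnit.{u + 1} => G) G' :=
      fun G' _ h' => Or.inl (hC G' h')
    refine (Good.tri hC' (ih C hC hG)).anti ?_
    rintro G' _ (h' | ⟨_, g, hg⟩)
    · exact Tri.of_it (It.base _ (Or.inl h'))
    · exact (Tri.freeWreath hC' (It.base _ (Or.inr ⟨PUnit.unit, MonoidHom.id G,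
        fun _ _ hab => hab⟩)) hN.tfSolv).sub g hg
  | union G J K hdir htop _ ih =>
    intro C hC hG
    have h1 := Adm.family hC hG (fun j => K j) ih
    refine Good.local ?_ h1
    rintro U _ (h' | ⟨_, f, hf⟩) F hF
    · exact ⟨U, inferInstance, MonoidHom.id U, fun _ _ hab => hab, by simp, Or.inl h'⟩
    · have hj : ∃ j, ∀ x ∈ F, f x ∈ K j := by
        classical
        choose j hj using fun x => htop (f x)
        obtain ⟨l, hl⟩ := hdir.finset_le (hF.toFinset.image j)
        refine ⟨l, fun x hx => hl (j x) (Finset.mem_image_of_mem _ (hF.mem_toFinset.2 hx)) (hj x)⟩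
      obtain ⟨j, hj⟩ := hj
      refine ⟨(K j).comap f, inferInstance, ((K j).comap f).subtype, Subtype.val_injective, ?_,
        Or.inr ⟨j, f.subgroupComap (K j), ?_⟩⟩
      · intro x hx
        exact ⟨⟨x, hj x hx⟩, rfl⟩
      · intro a b hab
        exact Subtype.ext (hf (congrArg Subtype.val hab))

theorem P_class_tower {A : Type u} [Ring A] (hA : OreTower A) {G : Type u} [Group G]
    (h : GrClass G) : P.{u, u} (MonoidAlgebra A G) :=
  h.adm (A := A) _ (fun _ _ h' => h') (good_tfSolv hA) G
    (It.base _ (Or.inr ⟨PUnit.unit, MonoidHom.id G, fun _ _ hab => hab⟩))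

/-- **Matrix groups over monoid algebras of submonoids of groups in the class `GrClass`.** -/
theorem P_class {A : Type u} [Ring A] (hA : (∀ x y : A, x * y = y * x) ∨ OreTower A)
    (S Γ : Type u) [Monoid S] [Group Γ] (ι : S →* Γ) (hι : Function.Injective ι)
    (hΓ : GrClass Γ) : P.{u, u} (MonoidAlgebra A S) := by
  rcases hA with hA | hA
  · let inst : CommRing A := { (inferInstance : Ring A) with mul_comm := hA }
    exact @P_commRing S _ (fun K _ => P_submonoidR ι hι
      (P_class_tower (OreTower.comm K mul_comm) hΓ)) A inst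
  · exact P_submonoidR ι hι (P_class_tower hA hΓ)

end Pool.Agent.H36.GY
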