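import Pool.Agent.H36.GX.Defs

/-!
# Project GY: groups acting on trees. Definitions

`FreeWreath G N Y` is the semidirect product of the free product of copies of the group `G`, indexed by
the set `Y`, and the group `N`, which permutes the copies. `GrClass` is the smallest class of groups which
contains the groups in `SolvTF` and is closed under subgroups, overgroups of finite index, graph products
over finite graphs, directed unions, and the products `FreeWreath G N Y` with `N` in `SolvTF`.
-/

set_option autoImplicit false

namespace Pool.Agent.H36.GY

open Pool.Agent.H36.OX Pool.Agent.H36.GX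

universe u

/-- The endomorphism of the free product of copies of `G` which maps the copy with index `y` to the copy
with index `n y`. -/
def shift (G : Type u) {N Y : Type u} [Group G] [Group N] [MulAction N Y] (n : N) :
    Monoid.CoprodI (fun _ : Y => G) →* Monoid.CoprodI (fun _ : Y => G) :=
  Monoid.CoprodI.lift fun y => Monoid.CoprodI.of (M := fun _ : Y => G) (i := n • y)

theorem shift_of (G : Type u) {N Y : Type u} [Group G] [Group N] [MulAction N Y] (n : N) (y : Y) (g : G) :
    shift G n (Monoid.CoprodI.of (M := fun _ : Y => G) (i := y) g) =
      Monoid.CoprodI.of (M := fun _ : Y => G) (i := n • y) g := by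
  rw [shift, Monoid.CoprodI.lift_of]

theorem shift_mul (G : Type u) {N Y : Type u} [Group G] [Group N] [MulAction N Y] (a b : N) :
    shift G (Y := Y) (a * b) = (shift G a).comp (shift G b) := by
  refine Monoid.CoprodI.ext_hom _ _ fun y => MonoidHom.ext fun g => ?_
  show shift G (a * b) (Monoid.CoprodI.of g) = shift G a (shift G b (Monoid.CoprodI.of g))
  rw [shift_of, shift_of, shift_of, mul_smul]

theorem shift_one (G : Type u) {N Y : Type u} [Group G] [Group N] [MulAction N Y] :
    shift G (1 : N) = MonoidHom.id (Monoid.CoprodI fun _ : Y => G) := by
  refine Monoid.CoprodI.ext_hom _ _ fun y => MonoidHom.ext fun g => ?_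
  show shift G (1 : N) (Monoid.CoprodI.of g) = Monoid.CoprodI.of g
  rw [shift_of, one_smul]

/-- `N` permutes the copies. -/
def shiftAut (G N Y : Type u) [Group G] [Group N] [MulAction N Y] :
    N →* MulAut (Monoid.CoprodI fun _ : Y => G) where
  toFun n :=
    { shift G n with
      invFun := shift G n⁻¹
      left_inv := fun x => by
        show ((shift G n⁻¹).comp (shift G n)) x = x
        rw [← shift_mul, inv_mul_cancel, shift_one, MonoidHom.id_apply]
      right_inv := fun x => by
        show ((shift G n).comp (shift G n⁻¹)) x = x
        rw [← shift_mul, mul_inv_cancel, shift_one, MonoidHom.id_apply] }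
  map_one' := MulEquiv.ext fun x => DFunLike.congr_fun (shift_one G) x
  map_mul' a b := MulEquiv.ext fun x => DFunLike.congr_fun (shift_mul G a b) x

/-- The semidirect product of the free product of copies of `G`, indexed by the set `Y`, and the group
`N`, which permutes the copies. -/
abbrev FreeWreath (G N Y : Type u) [Group G] [Group N] [MulAction N Y] : Type u :=
  SemidirectProduct (Monoid.CoprodI fun _ : Y => G) N (shiftAut G N Y)

/-- The smallest class of groups which contains the groups in `SolvTF` and is closed under
(sub) subgroups, (fin) overgroups of finite index, (prod) graph products over finite graphs,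
(wr) products `FreeWreath G N Y` with `N` in `SolvTF`, (union) directed unions. -/
inductive GrClass : (G : Type u) → [Group G] → Prop
  | solv (G : Type u) [Group G] (h : SolvTF G) : GrClass G
  | sub (G H : Type u) [Group G] [Group H] (f : G →* H) (hf : Function.Injective f)
      (h : GrClass H) : GrClass G
  | fin (G : Type u) [Group G] (H : Subgroup G) [H.FiniteIndex] (h : GrClass H) : GrClass G
  | prod (V : Type u) [Finite V] (E : SimpleGraph V) (G : V → Type u) [∀ v, Group (G v)]
      (h : ∀ v, GrClass (G v)) : GrClass (GraphProduct E G)
  | wr (G N Y : Type u) [Group G] [Group N] [MulAction N Y] (hG : GrClass G) (hN : SolvTF N) :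
      GrClass (FreeWreath G N Y)
  | union (G : Type u) [Group G] (J : Type u) [Nonempty J] (K : J → Subgroup G)
      (hdir : Directed (· ≤ ·) K) (htop : ∀ x, ∃ j, x ∈ K j) (h : ∀ j, GrClass (K j)) : GrClass G

end Pool.Agent.H36.GY
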