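import Pool.Agent.H36.OX.Base

/-!
# Project GY: extensions of groups with a series
-/

set_option autoImplicit false

namespace Pool.Agent.H36.GY

open Pool.Agent.H66.NCL Pool.Agent.H36.OX

universe u

private theorem solE_equiv {N : Type u} [Group N] (hN : TFSolv N) :
    ∀ {M : Type u} [Group M] (_ : N ≃* M), TFSolv M := by
  induction hN with
  | triv N h =>
    intro M _ e
    refine TFSolv.triv M fun x => ?_
    apply e.symm.injective
    rw [map_one]
    exact h _
  | step N₀ N i z h hz hN0 _ =>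
    intro M _ e
    obtain ⟨σ, hσ⟩ := h
    refine TFSolv.step N₀ M (e.toMonoidHom.comp i) (e z) ⟨σ, ?_⟩ ?_ hN0
    · intro x
      show e z * e (i x) = e (i (σ x)) * e z
      rw [← map_mul, ← map_mul, hσ]
    · have : (fun p : N₀ × ℤ => (e.toMonoidHom.comp i) p.1 * e z ^ p.2) =
          e ∘ fun p : N₀ × ℤ => i p.1 * z ^ p.2 := by
        funext p
        show e (i p.1) * e z ^ p.2 = e (i p.1 * z ^ p.2)
        rw [map_mul, map_zpow]
      rw [this]
      exact e.bijective.comp hz
  | union N J K hdir htop _ ih =>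
    intro M _ e
    refine TFSolv.union M J (fun j => (K j).map e.toMonoidHom) ?_ ?_ ?_
    · intro a b
      obtain ⟨c, h1, h2⟩ := hdir a b
      exact ⟨c, Subgroup.map_mono h1, Subgroup.map_mono h2⟩
    · intro x
      obtain ⟨j, hj⟩ := htop (e.symm x)
      exact ⟨j, ⟨e.symm x, hj, e.apply_symm_apply x⟩⟩
    · intro j
      exact ih j ((K j).equivMapOfInjective e.toMonoidHom e.injective)

private theorem solE_step {E N N₀ : Type u} [Group E] [Group N] [Group N₀] (p : E →* N)
    (hp : Function.Surjective p) (hk : TFSolv p.ker) (i : N₀ →* N) (z : N) (σ : N₀ ≃* N₀)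
    (hσ : ∀ x, z * i x = i (σ x) * z)
    (hz : Function.Bijective fun p : N₀ × ℤ => i p.1 * z ^ p.2)
    (ih : ∀ {E : Type u} [Group E] (p : E →* N₀), Function.Surjective p → TFSolv p.ker → TFSolv E) :
    TFSolv E := by
  have hi : Function.Injective i := by
    intro x y hxy
    have h1 : (x, (0 : ℤ)) = (y, 0) := hz.1 (by
      show i x * z ^ (0 : ℤ) = i y * z ^ (0 : ℤ)
      rw [hxy])
    exact (Prod.mk.inj h1).1
  obtain ⟨z', hz'⟩ := hp z
  let E0 : Subgroup E := i.range.comap p
  have hmem : ∀ e : E, e ∈ E0 ↔ ∃ x, i x = p e := fun e => Iff.rfl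
  have hcz : ∀ x, z * i x * z⁻¹ = i (σ x) := fun x => by rw [hσ, mul_inv_cancel_right]
  have hcz' : ∀ x, z⁻¹ * i x * z = i (σ.symm x) := fun x => by
    have h1 := hσ (σ.symm x)
    rw [MulEquiv.apply_symm_apply] at h1
    rw [mul_assoc, ← h1, inv_mul_cancel_left]
  have hc1 : ∀ e ∈ E0, z' * e * z'⁻¹ ∈ E0 := by
    rintro e ⟨x, hx⟩
    refine ⟨σ x, ?_⟩
    rw [map_mul, map_mul, map_inv, hz', ← hcz, ← hx]
  have hc2 : ∀ e ∈ E0, z'⁻¹ * e * z' ∈ E0 := by
    rintro e ⟨x, hx⟩
    refine ⟨σ.symm x, ?_⟩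
    rw [map_mul, map_mul, map_inv, hz', ← hcz', ← hx]
  have h0 : TFSolv E0 := by
    let p1 : E0 →* i.range := (p.comp E0.subtype).codRestrict i.range fun e => e.2
    let p0 : E0 →* N₀ := (MonoidHom.ofInjective hi).symm.toMonoidHom.comp p1
    have hp1 : ∀ e : E0, ((p1 e : i.range) : N) = p e := fun e => rfl
    have hker : ∀ e : E0, e ∈ p0.ker ↔ p e = 1 := by
      intro e
      rw [MonoidHom.mem_ker]
      show (MonoidHom.ofInjective hi).symm (p1 e) = 1 ↔ _
      rw [MulEquiv.map_eq_one_iff, ← hp1]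
      constructor
      · intro h
        rw [h]
        rfl
      · intro h
        exact Subtype.ext h
    refine ih p0 ?_ (solE_equiv hk
      { toFun := fun e => ⟨⟨e.1, ⟨1, by rw [map_one, MonoidHom.mem_ker.1 e.2]⟩⟩,
          (hker _).2 (MonoidHom.mem_ker.1 e.2)⟩
        invFun := fun e => ⟨e.1.1, MonoidHom.mem_ker.2 ((hker e.1).1 e.2)⟩
        left_inv := fun e => rfl
        right_inv := fun e => rfl
        map_mul' := fun a b => rfl })
    intro x
    obtain ⟨e, he⟩ := hp (i x)
    refine ⟨⟨e, x, he.symm⟩, ?_⟩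
    show (MonoidHom.ofInjective hi).symm (p1 ⟨e, x, he.symm⟩) = x
    rw [MulEquiv.symm_apply_eq]
    exact Subtype.ext he
  let τ : E0 ≃* E0 :=
    { toFun := fun e => ⟨z' * e * z'⁻¹, hc1 e e.2⟩
      invFun := fun e => ⟨z'⁻¹ * e * z', hc2 e e.2⟩
      left_inv := fun e => Subtype.ext (by simp [mul_assoc])
      right_inv := fun e => Subtype.ext (by simp [mul_assoc])
      map_mul' := fun x y => Subtype.ext (by simp [mul_assoc]) }
  refine TFSolv.step E0 E E0.subtype z' ⟨τ, ?_⟩ ⟨?_, ?_⟩ h0
  · intro e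
    show z' * (e : E) = z' * e * z'⁻¹ * z'
    rw [inv_mul_cancel_right]
  · rintro ⟨a, k⟩ ⟨b, l⟩ hab
    have h1 : (a : E) * z' ^ k = b * z' ^ l := hab
    obtain ⟨x, hx⟩ := a.2
    obtain ⟨y, hy⟩ := b.2
    have h2 : i x * z ^ k = i y * z ^ l := by
      rw [hx, hy, ← hz', ← map_zpow, ← map_zpow]
      show p a * p (z' ^ k) = p b * p (z' ^ l)
      rw [← map_mul, ← map_mul, h1]
    have h3 : (x, k) = (y, l) := hz.1 h2
    obtain ⟨-, h4⟩ := Prod.mk.inj h3
    subst h4
    exact Prod.ext (Subtype.ext (mul_right_cancel h1)) rfl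
  · intro e
    obtain ⟨⟨x, k⟩, hx⟩ := hz.2 (p e)
    have hx' : i x * z ^ k = p e := hx
    refine ⟨(⟨e * z' ^ (-k), ⟨x, ?_⟩⟩, k), ?_⟩
    · rw [map_mul, map_zpow, hz', ← hx', zpow_neg, mul_inv_cancel_right]
    · show e * z' ^ (-k) * z' ^ k = e
      rw [zpow_neg, inv_mul_cancel_right]

private theorem solE_union {E N : Type u} [Group E] [Group N] (p : E →* N)
    (hp : Function.Surjective p) (hk : TFSolv p.ker) (J : Type u) [Nonempty J] (K : J → Subgroup N)
    (hdir : Directed (· ≤ ·) K) (htop : ∀ x, ∃ j, x ∈ K j)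
    (ih : ∀ j, ∀ {E : Type u} [Group E] (p : E →* K j), Function.Surjective p → TFSolv p.ker →
      TFSolv E) : TFSolv E := by
  refine TFSolv.union E J (fun j => (K j).comap p) ?_ ?_ ?_
  · intro a b
    obtain ⟨c, h1, h2⟩ := hdir a b
    exact ⟨c, Subgroup.comap_mono h1, Subgroup.comap_mono h2⟩
  · intro x
    exact htop (p x)
  · intro j
    let p1 : (K j).comap p →* K j := (p.comp ((K j).comap p).subtype).codRestrict (K j) fun e => e.2
    have hker : ∀ e : (K j).comap p, e ∈ p1.ker ↔ p e = 1 := by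
      intro e
      rw [MonoidHom.mem_ker]
      constructor
      · intro h
        exact congrArg Subtype.val h
      · intro h
        exact Subtype.ext h
    refine ih j p1 ?_ (solE_equiv hk
      { toFun := fun e => ⟨⟨e.1, by
            show p e.1 ∈ K j
            rw [MonoidHom.mem_ker.1 e.2]
            exact (K j).one_mem⟩, (hker _).2 (MonoidHom.mem_ker.1 e.2)⟩
        invFun := fun e => ⟨e.1.1, MonoidHom.mem_ker.2 ((hker e.1).1 e.2)⟩
        left_inv := fun e => rfl
        right_inv := fun e => rfl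
        map_mul' := fun a b => rfl })
    intro x
    obtain ⟨e, he⟩ := hp x
    refine ⟨⟨e, by
      show p e ∈ K j
      rw [he]
      exact x.2⟩, Subtype.ext he⟩

theorem TFSolv.extension {E M : Type u} [Group E] [Group M] (p : E →* M)
    (hp : Function.Surjective p) (hk : TFSolv p.ker) (hM : TFSolv M) : TFSolv E := by
  have key : ∀ {M : Type u} [Group M] (_ : TFSolv M) {E : Type u} [Group E] (p : E →* M),
      Function.Surjective p → TFSolv p.ker → TFSolv E := by
    intro M _ hM
    induction hM with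
    | triv N h =>
      intro E _ p hp hk
      have h1 : p.ker = ⊤ := by
        rw [eq_top_iff]
        intro x _
        exact MonoidHom.mem_ker.2 (h _)
      exact solE_equiv hk ((MulEquiv.subgroupCongr h1).trans Subgroup.topEquiv)
    | step N₀ N i z h hz hN0 ih =>
      intro E _ p hp hk
      obtain ⟨σ, hσ⟩ := h
      exact solE_step p hp hk i z σ hσ hz ih
    | union N J K hdir htop _ ih =>
      intro E _ p hp hk
      exact solE_union p hp hk J K hdir htop ih
  exact key hM p hp hk

end Pool.Agent.H36.GY
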