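import Pool.Agent.H36.GY.Base
import Pool.Agent.H36.GY.SolE
import Pool.Agent.H36.OX.ExtG
import Pool.Agent.H36.GX.Sol

/-!
# Project GY: a solvable group which contains the words on `Bool × Y` and in which `N` permutes the letters

The group `perQ N Y` of the triples `(f, k, n)`, `f : ℤ → Bool × Y → ℤ`, `k : ℤ`, `n : N`, where `(k, n)` acts on the
functions by the shift by `k` and the permutation `n`.
-/

set_option autoImplicit false

namespace Pool.Agent.H36.GY

open Pool.Agent.H66.NCL Pool.Agent.H36.OX Pool.Agent.H36.GX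

universe u v w

/-- the triples -/
private structure perQ (N Y : Type u) where
  /-- the function -/
  f : ℤ → Bool × Y → ℤ
  /-- the shift -/
  k : ℤ
  /-- the permutation -/
  n : N

section

variable {N Y : Type u} [Group N] [MulAction N Y]

private theorem perQ.ext' {a b : perQ N Y} (h1 : ∀ m t, a.f m t = b.f m t) (h2 : a.k = b.k)
    (h3 : a.n = b.n) : a = b := by
  obtain ⟨f, k, n⟩ := a
  obtain ⟨f', k', n'⟩ := b
  obtain rfl : f = f' := funext fun m => funext fun t => h1 m t
  obtain rfl : k = k' := h2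
  obtain rfl : n = n' := h3
  rfl

private instance : Mul (perQ N Y) :=
  ⟨fun a b => ⟨fun m t => a.f m t + b.f (m - a.k) (t.1, a.n⁻¹ • t.2), a.k + b.k, a.n * b.n⟩⟩
private instance : One (perQ N Y) := ⟨⟨fun _ _ => 0, 0, 1⟩⟩
private instance : Inv (perQ N Y) :=
  ⟨fun a => ⟨fun m t => -a.f (m - -a.k) (t.1, a.n • t.2), -a.k, a.n⁻¹⟩⟩

private theorem perQ.mul_f (a b : perQ N Y) (m : ℤ) (t : Bool × Y) :
    (a * b).f m t = a.f m t + b.f (m - a.k) (t.1, a.n⁻¹ • t.2) := rfl
private theorem perQ.mul_k (a b : perQ N Y) : (a * b).k = a.k + b.k := rfl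
private theorem perQ.mul_n (a b : perQ N Y) : (a * b).n = a.n * b.n := rfl
private theorem perQ.one_f (m : ℤ) (t : Bool × Y) : (1 : perQ N Y).f m t = 0 := rfl
private theorem perQ.one_k : (1 : perQ N Y).k = 0 := rfl
private theorem perQ.one_n : (1 : perQ N Y).n = 1 := rfl
private theorem perQ.inv_f (a : perQ N Y) (m : ℤ) (t : Bool × Y) :
    (a⁻¹).f m t = -a.f (m - -a.k) (t.1, a.n • t.2) := rfl
private theorem perQ.inv_k (a : perQ N Y) : (a⁻¹).k = -a.k := rfl
private theorem perQ.inv_n (a : perQ N Y) : (a⁻¹).n = a.n⁻¹ := rfl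

private instance : Group (perQ N Y) := Group.ofLeftAxioms
  (fun a b c => perQ.ext' (fun m t => by
    simp only [perQ.mul_f, perQ.mul_k, perQ.mul_n, mul_inv_rev, mul_smul, add_assoc, sub_sub])
    (by simp only [perQ.mul_k, add_assoc]) (by simp only [perQ.mul_n, mul_assoc]))
  (fun a => perQ.ext' (fun m t => by
    simp only [perQ.mul_f, perQ.one_f, perQ.one_k, perQ.one_n, inv_one, one_smul, sub_zero,
      zero_add])
    (by simp only [perQ.mul_k, perQ.one_k, zero_add]) (by simp only [perQ.mul_n, perQ.one_n, one_mul]))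
  (fun a => perQ.ext' (fun m t => by
    simp only [perQ.mul_f, perQ.inv_f, perQ.inv_k, perQ.inv_n, inv_inv, perQ.one_f,
      neg_add_cancel])
    (by simp only [perQ.mul_k, perQ.inv_k, perQ.one_k, neg_add_cancel])
    (by simp only [perQ.mul_n, perQ.inv_n, perQ.one_n, inv_mul_cancel]))

/-- the components -/
private def perP (N Y : Type u) [Group N] [MulAction N Y] :
    perQ N Y →* Multiplicative (ULift.{u} ℤ) × N where
  toFun a := (Multiplicative.ofAdd ⟨a.k⟩, a.n)
  map_one' := rfl
  map_mul' _ _ := rfl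

private theorem per_ker {a : perQ N Y} (h : a ∈ (perP N Y).ker) : a.k = 0 ∧ a.n = 1 := by
  have h1 : perP N Y a = 1 := h
  refine ⟨?_, congrArg Prod.snd h1⟩
  have h2 : (Multiplicative.ofAdd (⟨a.k⟩ : ULift.{u} ℤ)) = 1 := congrArg Prod.fst h1
  exact congrArg (fun z : Multiplicative (ULift.{u} ℤ) => (Multiplicative.toAdd z).down) h2

private theorem per_tf (hN : TFSolv N) : TFSolv (perQ N Y) := by
  refine TFSolv.extension (perP N Y) ?_ ?_ ?_
  · rintro ⟨z, n⟩
    exact ⟨⟨fun _ _ => 0, (Multiplicative.toAdd z).down, n⟩, rfl⟩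
  · refine TFSolv.comm _ (fun x y => ?_) (fun x n hn hx => ?_)
    · obtain ⟨h1, h2⟩ := per_ker x.2
      obtain ⟨h3, h4⟩ := per_ker y.2
      refine Subtype.ext (perQ.ext' (fun m t => ?_) ?_ ?_)
      · show ((x : perQ N Y) * y).f m t = ((y : perQ N Y) * x).f m t
        rw [perQ.mul_f, perQ.mul_f, h1, h2, h3, h4, inv_one, one_smul, sub_zero, add_comm]
      · show ((x : perQ N Y) * y).k = ((y : perQ N Y) * x).k
        rw [perQ.mul_k, perQ.mul_k, add_comm]
      · show ((x : perQ N Y) * y).n = ((y : perQ N Y) * x).n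
        rw [perQ.mul_n, perQ.mul_n, h2, h4]
    · obtain ⟨h1, h2⟩ := per_ker x.2
      have h3 : ∀ (l : ℕ) (m : ℤ) (t : Bool × Y), ((x : perQ N Y) ^ l).f m t = l * x.1.f m t := by
        intro l
        induction l with
        | zero =>
          intro m t
          rw [pow_zero, perQ.one_f, Nat.cast_zero, zero_mul]
        | succ l ih =>
          intro m t
          rw [pow_succ', perQ.mul_f, h1, h2, inv_one, one_smul, sub_zero, ih]
          push_cast
          ring
      have h4 : (x : perQ N Y) ^ n = 1 := by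
        have h5 := congrArg Subtype.val hx
        exact h5
      refine Subtype.ext (perQ.ext' (fun m t => ?_) h1 h2)
      show x.1.f m t = (1 : perQ N Y).f m t
      have h5 := h3 n m t
      rw [h4, perQ.one_f] at h5
      rw [perQ.one_f]
      rcases mul_eq_zero.1 h5.symm with h6 | h6
      · exact absurd (by exact_mod_cast h6) hn
      · exact h6
  · refine TFSolv.prod (TFSolv.comm _ (fun x y => mul_comm x y) fun x n hn hx => ?_) hN
    have h1 : n • (Multiplicative.toAdd x).down = 0 :=
      congrArg (fun z : Multiplicative (ULift.{u} ℤ) => (Multiplicative.toAdd z).down) hx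
    rw [nsmul_eq_mul] at h1
    rcases mul_eq_zero.1 h1 with h6 | h6
    · exact absurd (by exact_mod_cast h6) hn
    · exact congrArg (fun z : ℤ => Multiplicative.ofAdd (ULift.up.{u} z)) h6

end

theorem exists_perm {N : Type u} [Group N] (hN : TFSolv N) (Y : Type u) [MulAction N Y] :
    ∃ (Q : Type u) (_ : Group Q) (j : N →* Q) (x : Bool × Y → Q) (π : Q →* N)
      (δ : Q →* Multiplicative ℤ) (Pos : Q → Prop), TFSolv Q ∧ Pos 1 ∧
      (∀ t q, Pos q → Pos (x t * q)) ∧
      (∀ t q t' q', Pos q → Pos q' → x t * q = x t' * q' → t = t' ∧ q = q') ∧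
      (∀ n b y, j n * x (b, y) * (j n)⁻¹ = x (b, n • y)) ∧ (∀ n, π (j n) = n) ∧
      (∀ t, π (x t) = 1) ∧ (∀ n, δ (j n) = 1) ∧ ∀ t, δ (x t) = Multiplicative.ofAdd 1 := by
  classical
  refine ⟨perQ N Y, inferInstance,
    { toFun := fun n => ⟨fun _ _ => 0, 0, n⟩
      map_one' := rfl
      map_mul' := fun a b => perQ.ext' (fun m t => (add_zero (0 : ℤ)).symm) (add_zero (0 : ℤ)).symm
        rfl },
    fun t => ⟨fun m t' => if m = 0 ∧ t' = t then 1 else 0, 1, 1⟩,
    { toFun := fun a => a.n
      map_one' := rfl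
      map_mul' := fun _ _ => rfl },
    { toFun := fun a => Multiplicative.ofAdd a.k
      map_one' := rfl
      map_mul' := fun _ _ => rfl },
    fun q => ∀ m < 0, ∀ t, q.f m t = 0, per_tf hN, fun _ _ _ => rfl, ?_, ?_, ?_,
    fun _ => rfl, fun _ => rfl, fun _ => rfl, fun _ => rfl⟩
  · intro t q hq m hm t'
    rw [perQ.mul_f]
    show (if m = 0 ∧ t' = t then (1 : ℤ) else 0) + q.f (m - 1) (t'.1, (1 : N)⁻¹ • t'.2) = 0
    rw [if_neg fun h => absurd h.1 hm.ne, hq (m - 1) (by omega), add_zero]
  · intro t q t' q' hq hq' h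
    have key : ∀ (m : ℤ) (s : Bool × Y), (if m = 0 ∧ s = t then (1 : ℤ) else 0) + q.f (m - 1) s =
        (if m = 0 ∧ s = t' then (1 : ℤ) else 0) + q'.f (m - 1) s := by
      intro m s
      have h1 := congrArg (fun a : perQ N Y => a.f m s) h
      simp only [perQ.mul_f, inv_one, one_smul] at h1
      exact h1
    have ht : t = t' := by
      have h1 := key 0 t
      rw [hq (0 - 1) (by omega), hq' (0 - 1) (by omega), add_zero, add_zero,
        if_pos ⟨rfl, rfl⟩] at h1
      by_contra hne
      rw [if_neg fun h => hne h.2] at h1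
      exact absurd h1 (by omega)
    subst ht
    refine ⟨rfl, perQ.ext' (fun m s => ?_) ?_ ?_⟩
    · have h1 := key (m + 1) s
      rw [add_sub_cancel_right] at h1
      exact add_left_cancel h1
    · have h1 := congrArg (fun a : perQ N Y => a.k) h
      simp only [perQ.mul_k] at h1
      exact add_left_cancel h1
    · have h1 := congrArg (fun a : perQ N Y => a.n) h
      simp only [perQ.mul_n, one_mul] at h1
      exact h1
  · intro n b y
    refine perQ.ext' (fun m s => ?_) ?_ ?_
    · show (0 : ℤ) + (if m - 0 = 0 ∧ ((s.1, n⁻¹ • s.2) : Bool × Y) = (b, y) then (1 : ℤ) else 0) +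
        -(0 : ℤ) = if m = 0 ∧ s = (b, n • y) then (1 : ℤ) else 0
      rw [zero_add, neg_zero, add_zero, sub_zero]
      have h1 : (((s.1, n⁻¹ • s.2) : Bool × Y) = (b, y)) ↔ s = (b, n • y) := by
        obtain ⟨s1, s2⟩ := s
        simp only [Prod.mk.injEq]
        rw [inv_smul_eq_iff]
      simp only [h1]
    · show (0 : ℤ) + 1 + -0 = 1
      rfl
    · show n * 1 * n⁻¹ = (1 : N)
      rw [mul_one, mul_inv_cancel]

end Pool.Agent.H36.GY
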