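import Pool.Agent.H36.GY.Base
import Pool.Agent.H36.GX.Pos
import Pool.Agent.H36.GY.Perm

/-!
# Project GY: the data for the representation of `FreeWreath G N Y` (module FwD)
-/

set_option autoImplicit false

namespace Pool.Agent.H36.GY

open Pool.Agent.H66.NCL Pool.Agent.H36.OX Pool.Agent.H36.GX

universe u

/-- two groups -/
private def fwG (A B : Type u) : ULift.{u} Bool → Type u
  | ⟨true⟩ => A
  | ⟨false⟩ => B

private def fwGI (A B : Type u) [Group A] [Group B] : ∀ v, Group (fwG A B v)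
  | ⟨true⟩ => inferInstanceAs (Group A)
  | ⟨false⟩ => inferInstanceAs (Group B)

attribute [local instance] fwGI

private def fwPair {A B : Type u} (p : A × B) : ∀ v, fwG A B v
  | ⟨true⟩ => p.1
  | ⟨false⟩ => p.2

private def fwHom (A B : Type u) [Group A] [Group B] : A × B →* ∀ v, fwG A B v where
  toFun := fwPair
  map_one' := by
    funext v
    match v with
    | ⟨true⟩ => rfl
    | ⟨false⟩ => rfl
  map_mul' p q := by
    funext v
    match v with
    | ⟨true⟩ => rfl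
    | ⟨false⟩ => rfl

private theorem fwHom_inj (A B : Type u) [Group A] [Group B] : Function.Injective (fwHom A B) := by
  intro p q h
  exact Prod.ext (congrFun h ⟨true⟩) (congrFun h ⟨false⟩)

private theorem fw_it {C : (G : Type u) → [Group G] → Prop} {A B : Type u} [Group A] [Group B]
    (hA : It C A) (hB : It C B) :
    ∃ (Q' : Type u) (_ : Group Q') (f : A × B →* Q'), It C Q' ∧ Function.Injective f := by
  obtain ⟨f, hf⟩ := exists_pi_gp (fwG A B)
  refine ⟨GraphProduct ⊤ (fwG A B), inferInstance, f.comp (fwHom A B), ?_,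
    hf.comp (fwHom_inj A B)⟩
  apply It.prod
  intro v
  match v with
  | ⟨true⟩ => exact hA
  | ⟨false⟩ => exact hB

theorem exists_isFw {C : (G : Type u) → [Group G] → Prop}
    (hC : ∀ (G : Type u) [Group G], TFSolv G → C G) {G N Y : Type u} [Group G] [Group N]
    [MulAction N Y] (hG : It C G) (hN : TFSolv N) :
    ∃ (Q : Type u) (_ : Group Q) (i : G →* Q) (j : N →* Q) (x : Bool × Y → Q) (π : Q →* N)
      (δ : Q →* Multiplicative ℤ) (Pos : Q → Prop) (Q' : Type u) (_ : Group Q') (f : Q →* Q'),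
      IsFw i j x π δ Pos ∧ It C Q' ∧ Function.Injective f := by
  obtain ⟨Qa, _, ia, xa, Posa, hQa, hpa⟩ := It.exists_pos hC hG PUnit.{u + 1}
  obtain ⟨Q1, _, j1, x1, π1, δ1, Pos1, hQ1, hone, hmul, hinj, hconj, hπj, hπx, hδj, hδx⟩ :=
    exists_perm hN Y
  obtain ⟨Q', _, f, hQ', hf⟩ := fw_it hQa (It.base (C := C) Q1 (hC Q1 hQ1))
  refine ⟨Qa × Q1, inferInstance, (MonoidHom.inl Qa Q1).comp ia, (MonoidHom.inr Qa Q1).comp j1,
    fun t => (xa PUnit.unit, x1 t), π1.comp (MonoidHom.snd Qa Q1),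
    δ1.comp (MonoidHom.snd Qa Q1), fun q => Posa q.1 ∧ Pos1 q.2, Q', inferInstance, f, ?_, hQ', hf⟩
  refine ⟨⟨⟨hpa.one, hone⟩, ?_, ?_⟩, ?_, ?_, ?_, hπj, hπx, ?_, hδj, hδx⟩
  · rintro n t ⟨q, r⟩ ⟨hq, hr⟩
    refine ⟨hpa.mul n PUnit.unit q hq, ?_⟩
    show Pos1 (1 * x1 t * r)
    rw [one_mul]
    exact hmul t r hr
  · rintro n t ⟨q, r⟩ n' t' ⟨q', r'⟩ ⟨hq, hr⟩ ⟨hq', hr'⟩ he
    obtain ⟨he1, he2⟩ := Prod.mk.inj he
    have he2' : 1 * x1 t * r = 1 * x1 t' * r' := he2
    rw [one_mul, one_mul] at he2'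
    obtain ⟨h1, -, h2⟩ := hpa.inj n PUnit.unit q n' PUnit.unit q' hq hq' he1
    obtain ⟨h3, h4⟩ := hinj t r t' r' hr hr' he2'
    exact ⟨h1, h3, Prod.ext h2 h4⟩
  · intro g n
    show ((ia g * 1, 1 * j1 n) : Qa × Q1) = (1 * ia g, j1 n * 1)
    rw [one_mul, mul_one, one_mul, mul_one]
  · intro n b y
    show ((1 * xa PUnit.unit * 1⁻¹, j1 n * x1 (b, y) * (j1 n)⁻¹) : Qa × Q1) =
      (xa PUnit.unit, x1 (b, n • y))
    rw [hconj, one_mul, inv_one, mul_one]
  · intro g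
    show π1 1 = 1
    exact map_one π1
  · intro g
    show δ1 1 = 1
    exact map_one δ1

end Pool.Agent.H36.GY
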