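import Pool.Agent.H36.GY.Base

/-!
# Project GY: representation of free wreath products by 2 x 2 matrices
-/

set_option autoImplicit false
set_option linter.unusedSectionVars false

namespace Pool.Agent.H36.GY

open Pool.Agent.H66.NCL Pool.Agent.H36.OX Pool.Agent.H36.GX

universe u v w

section

variable {G N Y Q : Type u} [Group G] [Group N] [MulAction N Y] [Group Q]

/-- the members of the group ring given by the members of the group -/
private noncomputable def ee (q : Q) : MonoidAlgebra ℤ Q := MonoidAlgebra.single q 1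

private theorem ee_mul (p q : Q) : ee (p * q) = ee p * ee q := by
  unfold ee
  rw [MonoidAlgebra.single_mul_single, one_mul]

private theorem ee_one : ee (1 : Q) = 1 := rfl

private theorem ee_mul_coeff (p q : Q) (a : MonoidAlgebra ℤ Q) :
    (ee p * a).coeff q = a.coeff (p⁻¹ * q) := by
  unfold ee
  rw [MonoidAlgebra.coeff_single_mul_apply, one_mul]

private theorem mul_ee_coeff (p q : Q) (a : MonoidAlgebra ℤ Q) :
    (a * ee p).coeff q = a.coeff (q * p⁻¹) := by
  unfold ee
  rw [MonoidAlgebra.coeff_mul_single_apply, mul_one]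

/-- the support satisfies `P` -/
private def Sp (P : Q → Prop) (a : MonoidAlgebra ℤ Q) : Prop := ∀ q, a.coeff q ≠ 0 → P q

private theorem Sp.add {P : Q → Prop} {a b : MonoidAlgebra ℤ Q} (ha : Sp P a) (hb : Sp P b) :
    Sp P (a + b) := by
  intro q hq
  by_cases h : a.coeff q = 0
  · refine hb q fun h' => hq ?_
    rw [MonoidAlgebra.coeff_add, Finsupp.add_apply, h, h', add_zero]
  · exact ha q h

private theorem Sp.sub {P : Q → Prop} {a b : MonoidAlgebra ℤ Q} (ha : Sp P a) (hb : Sp P b) :
    Sp P (a - b) := by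
  intro q hq
  by_cases h : a.coeff q = 0
  · refine hb q fun h' => hq ?_
    rw [MonoidAlgebra.coeff_sub, Finsupp.sub_apply, h, h', sub_zero]
  · exact ha q h

private theorem Sp.zero (P : Q → Prop) : Sp P (0 : MonoidAlgebra ℤ Q) := by
  intro q hq
  rw [MonoidAlgebra.coeff_zero] at hq
  exact absurd rfl hq

private theorem Sp.mono {P P' : Q → Prop} {a : MonoidAlgebra ℤ Q} (ha : Sp P a)
    (h : ∀ q, P q → P' q) : Sp P' a := fun q hq => h q (ha q hq)

private theorem Sp.ee_mul {P P' : Q → Prop} {a : MonoidAlgebra ℤ Q} (ha : Sp P a) (p : Q)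
    (h : ∀ q, P q → P' (p * q)) : Sp P' (ee p * a) := by
  intro q hq
  rw [ee_mul_coeff] at hq
  have h1 := h _ (ha _ hq)
  rwa [mul_inv_cancel_left] at h1

variable (i : G →* Q) (j : N →* Q) (x : Bool × Y → Q)

/-- the factor on the right -/
private noncomputable def ww (y : Y) (v1 v2 : MonoidAlgebra ℤ Q) : MonoidAlgebra ℤ Q :=
  ee (x (true, y)) * v1 + v2 - ee (x (true, y)) * (ee (x (false, y)) * v2)

/-- the factor in the middle -/
private noncomputable def dw (g : G) (a : MonoidAlgebra ℤ Q) : MonoidAlgebra ℤ Q :=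
  ee (i g) * a - a

/-- the first column of the product of the matrices of the letters -/
private noncomputable def vv : List (Σ _ : Y, G) → MonoidAlgebra ℤ Q × MonoidAlgebra ℤ Q
  | [] => (1, 0)
  | p :: om => ((vv om).1 + ee (x (false, p.1)) * dw i p.2 (ww x p.1 (vv om).1 (vv om).2),
      (vv om).2 + dw i p.2 (ww x p.1 (vv om).1 (vv om).2))

/-- the matrix of the element `g` of the copy with index `y` -/
private noncomputable def rm (y : Y) (g : G) : Matrix (Fin 2) (Fin 2) (MonoidAlgebra ℤ Q) :=
  !![1 + ee (x (false, y)) * ((ee (i g) - 1) * ee (x (true, y))),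
      ee (x (false, y)) * ((ee (i g) - 1) * (1 - ee (x (true, y)) * ee (x (false, y))));
    (ee (i g) - 1) * ee (x (true, y)),
      1 + (ee (i g) - 1) * (1 - ee (x (true, y)) * ee (x (false, y)))]

private theorem rm_one (y : Y) : rm i x y 1 = 1 := by
  unfold rm
  rw [map_one, ee_one, sub_self, zero_mul, zero_mul, mul_zero, add_zero]
  exact Matrix.one_fin_two.symm

private theorem rm_mul (y : Y) (g h : G) : rm i x y (g * h) = rm i x y g * rm i x y h := by
  unfold rm
  rw [map_mul, ee_mul, Matrix.mul_fin_two]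
  congr 1
  refine congrArg₂ _ (congrArg₂ _ ?_ (congrArg₂ _ ?_ rfl)) (congrArg₂ _ (congrArg₂ _ ?_ (congrArg₂ _ ?_ rfl)) rfl)
  all_goals noncomm_ring

/-- the representation of the copy with index `y` -/
private noncomputable def rh (y : Y) : G →* Matrix (Fin 2) (Fin 2) (MonoidAlgebra ℤ Q) where
  toFun g := rm i x y g
  map_one' := rm_one i x y
  map_mul' g h := rm_mul i x y g h

/-- the representation of the free product -/
private noncomputable def aa : Monoid.CoprodI (fun _ : Y => G) →*
    Matrix (Fin 2) (Fin 2) (MonoidAlgebra ℤ Q) :=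
  Monoid.CoprodI.lift fun y => rh i x y

private theorem aa_of (y : Y) (g : G) :
    aa i x (Monoid.CoprodI.of (M := fun _ : Y => G) (i := y) g) = rm i x y g := by
  unfold aa
  rw [Monoid.CoprodI.lift_of]
  rfl

/-- the representation of `N` -/
private noncomputable def bb : N →* Matrix (Fin 2) (Fin 2) (MonoidAlgebra ℤ Q) where
  toFun n := !![ee (j n), 0; 0, ee (j n)]
  map_one' := by
    rw [map_one, ee_one]
    exact Matrix.one_fin_two.symm
  map_mul' m n := by
    rw [map_mul, ee_mul, Matrix.mul_fin_two]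
    congr 1
    refine congrArg₂ _ (congrArg₂ _ ?_ (congrArg₂ _ ?_ rfl)) (congrArg₂ _ (congrArg₂ _ ?_ (congrArg₂ _ ?_ rfl)) rfl)
    all_goals noncomm_ring

private theorem bb_apply (n : N) : bb j n = !![ee (j n), 0; 0, ee (j n)] := rfl

variable {i j x} {π : Q →* N} {δ : Q →* Multiplicative ℤ} {Pos : Q → Prop}

private theorem ee_conj (h : IsFw i j x π δ Pos) (n : N) (b : Bool) (y : Y) :
    ee (j n) * ee (x (b, y)) = ee (x (b, n • y)) * ee (j n) := by
  rw [← ee_mul, ← ee_mul, ← h.conj n b y, inv_mul_cancel_right]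

private theorem ee_comm (h : IsFw i j x π δ Pos) (n : N) (g : G) :
    ee (j n) * ee (i g) = ee (i g) * ee (j n) := by
  rw [← ee_mul, ← ee_mul, h.comm]

private theorem bb_rm (h : IsFw i j x π δ Pos) (n : N) (y : Y) (g : G) :
    bb j n * rm i x y g = rm i x (n • y) g * bb j n := by
  have hz := ee_conj h n false y
  have hw := ee_conj h n true y
  have hg := ee_comm h n g
  have hz' : ∀ c, ee (j n) * (ee (x (false, y)) * c) = ee (x (false, n • y)) * (ee (j n) * c) := by
    intro c
    rw [← mul_assoc, hz, mul_assoc]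
  have hw' : ∀ c, ee (j n) * (ee (x (true, y)) * c) = ee (x (true, n • y)) * (ee (j n) * c) := by
    intro c
    rw [← mul_assoc, hw, mul_assoc]
  have hg' : ∀ c, ee (j n) * (ee (i g) * c) = ee (i g) * (ee (j n) * c) := by
    intro c
    rw [← mul_assoc, hg, mul_assoc]
  unfold rm
  rw [bb_apply, Matrix.mul_fin_two, Matrix.mul_fin_two]
  congr 1
  refine congrArg₂ _ (congrArg₂ _ ?_ (congrArg₂ _ ?_ rfl)) (congrArg₂ _ (congrArg₂ _ ?_ (congrArg₂ _ ?_ rfl)) rfl)
  all_goals
    simp only [zero_mul, mul_zero, zero_add, add_zero, sub_zero, mul_add, add_mul, mul_sub, sub_mul, mul_one,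
      one_mul, mul_assoc, hz, hw, hg, hz', hw', hg']

private theorem bb_aa (h : IsFw i j x π δ Pos) (n : N) (l : Monoid.CoprodI (fun _ : Y => G)) :
    bb j n * aa i x l = aa i x (shift G n l) * bb j n := by
  induction l using Monoid.CoprodI.induction_on with
  | one => rw [map_one, map_one, map_one, mul_one, one_mul]
  | of y g => rw [shift_of, aa_of, aa_of, bb_rm h]
  | mul a b ha hb => rw [map_mul, map_mul, map_mul, ← mul_assoc, ha, mul_assoc, hb, mul_assoc]

/-- the representation of the semidirect product -/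
private noncomputable def ab (h : IsFw i j x π δ Pos) :
    FreeWreath G N Y →* Matrix (Fin 2) (Fin 2) (MonoidAlgebra ℤ Q) where
  toFun s := aa i x s.left * bb j s.right
  map_one' := by
    rw [SemidirectProduct.one_left, SemidirectProduct.one_right, map_one, map_one, mul_one]
  map_mul' s t := by
    have e : (shiftAut G N Y s.right) t.left = shift G s.right t.left := rfl
    rw [SemidirectProduct.mul_left, SemidirectProduct.mul_right, e, map_mul, map_mul, mul_assoc,
      mul_assoc, ← mul_assoc (bb j s.right), bb_aa h, mul_assoc]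

private theorem ab_apply (h : IsFw i j x π δ Pos) (s : FreeWreath G N Y) :
    ab h s = aa i x s.left * bb j s.right := rfl

/-- the product of a word -/
private def wp (om : List (Σ _ : Y, G)) : Monoid.CoprodI (fun _ : Y => G) :=
  (om.map fun l => Monoid.CoprodI.of (M := fun _ : Y => G) (i := l.1) l.2).prod

private theorem aa_wp (om : List (Σ _ : Y, G)) :
    aa i x (wp om) 0 0 = (vv i x om).1 ∧ aa i x (wp om) 1 0 = (vv i x om).2 := by
  induction om with
  | nil =>
    have h0 : wp ([] : List (Σ _ : Y, G)) = 1 := rfl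
    rw [h0, map_one]
    exact ⟨rfl, rfl⟩
  | cons p om ih =>
    have h0 : wp (p :: om) = Monoid.CoprodI.of (M := fun _ : Y => G) (i := p.1) p.2 * wp om := by
      unfold wp
      rw [List.map_cons, List.prod_cons]
    rw [h0, map_mul, aa_of, Matrix.mul_apply, Matrix.mul_apply, Fin.sum_univ_two, Fin.sum_univ_two,
      ih.1, ih.2]
    constructor
    · show (1 + ee (x (false, p.1)) * ((ee (i p.2) - 1) * ee (x (true, p.1)))) * (vv i x om).1 +
        ee (x (false, p.1)) * ((ee (i p.2) - 1) *
          (1 - ee (x (true, p.1)) * ee (x (false, p.1)))) * (vv i x om).2 =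
        (vv i x om).1 + ee (x (false, p.1)) * (ee (i p.2) *
          (ee (x (true, p.1)) * (vv i x om).1 + (vv i x om).2 -
            ee (x (true, p.1)) * (ee (x (false, p.1)) * (vv i x om).2)) -
          (ee (x (true, p.1)) * (vv i x om).1 + (vv i x om).2 -
            ee (x (true, p.1)) * (ee (x (false, p.1)) * (vv i x om).2)))
      noncomm_ring
    · show (ee (i p.2) - 1) * ee (x (true, p.1)) * (vv i x om).1 +
        (1 + (ee (i p.2) - 1) *
          (1 - ee (x (true, p.1)) * ee (x (false, p.1)))) * (vv i x om).2 =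
        (vv i x om).2 + (ee (i p.2) *
          (ee (x (true, p.1)) * (vv i x om).1 + (vv i x om).2 -
            ee (x (true, p.1)) * (ee (x (false, p.1)) * (vv i x om).2)) -
          (ee (x (true, p.1)) * (vv i x om).1 + (vv i x om).2 -
            ee (x (true, p.1)) * (ee (x (false, p.1)) * (vv i x om).2)))
      noncomm_ring

private theorem ab_coeff (h : IsFw i j x π δ Pos) (s : FreeWreath G N Y) (om : List (Σ _ : Y, G))
    (hs : s.left = wp om) (q : Q) :
    (ab h s 0 0).coeff q = (vv i x om).1.coeff (q * (j s.right)⁻¹) := by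
  rw [ab_apply, hs, Matrix.mul_apply, Fin.sum_univ_two, (aa_wp om).1, bb_apply]
  show ((vv i x om).1 * ee (j s.right) + aa i x (wp om) 0 1 * 0).coeff q = _
  rw [mul_zero, add_zero, mul_ee_coeff]

/-! ### Supports -/

/-- support of the first entry -/
private def S1 (π : Q →* N) (δ : Q →* Multiplicative ℤ) (Pos : Q → Prop) (k : ℕ) (q : Q) : Prop :=
  Pos q ∧ π q = 1 ∧ (δ q).toAdd ≤ 2 * (k : ℤ)

/-- support of the second entry and of the factor on the right -/
private def S2 (i : G →* Q) (x : Bool × Y → Q) (π : Q →* N) (δ : Q →* Multiplicative ℤ)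
    (Pos : Q → Prop) (k : ℤ) (q : Q) : Prop :=
  (∃ g t r, Pos r ∧ q = i g * x t * r) ∧ π q = 1 ∧ (δ q).toAdd ≤ k

private theorem S2.pos (h : IsFw i j x π δ Pos) {k : ℤ} {q : Q} (hq : S2 i x π δ Pos k q) :
    Pos q := by
  obtain ⟨⟨g, t, r, hr, rfl⟩, -, -⟩ := hq
  exact h.pos.mul _ _ _ hr

private theorem pos_mul (h : IsFw i j x π δ Pos) (t : Bool × Y) {q : Q} (hq : Pos q) :
    Pos (x t * q) := by
  have h1 := h.pos.mul 1 t q hq
  rwa [map_one, one_mul] at h1

private theorem pi_x (h : IsFw i j x π δ Pos) (t : Bool × Y) {q : Q} (hq : π q = 1) :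
    π (x t * q) = 1 := by rw [map_mul, h.πx, hq, mul_one]

private theorem de_x (h : IsFw i j x π δ Pos) (t : Bool × Y) (q : Q) :
    (δ (x t * q)).toAdd = 1 + (δ q).toAdd := by rw [map_mul, h.δx, toAdd_mul, toAdd_ofAdd]

private theorem de_i (h : IsFw i j x π δ Pos) (g : G) (q : Q) :
    (δ (i g * q)).toAdd = (δ q).toAdd := by rw [map_mul, h.δi, one_mul]

private theorem S2_ww (h : IsFw i j x π δ Pos) (y : Y) {k : ℕ} {v1 v2 : MonoidAlgebra ℤ Q}
    (h1 : Sp (S1 π δ Pos k) v1) (h2 : Sp (S2 i x π δ Pos (2 * k - 1)) v2) :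
    Sp (S2 i x π δ Pos (2 * k + 1)) (ww x y v1 v2) := by
  unfold ww
  refine Sp.sub (Sp.add (h1.ee_mul _ ?_) (h2.mono ?_))
    ((h2.ee_mul (P' := S1 π δ Pos k) _ ?_).ee_mul _ ?_)
  · rintro q ⟨hq, hq1, hq2⟩
    refine ⟨⟨1, (true, y), q, hq, ?_⟩, pi_x h _ hq1, ?_⟩
    · rw [map_one, one_mul]
    · rw [de_x h]
      omega
  · rintro q ⟨hq, hq1, hq2⟩
    exact ⟨hq, hq1, by omega⟩
  · intro q hq
    refine ⟨pos_mul h _ (hq.pos h), pi_x h _ hq.2.1, ?_⟩
    have h3 := hq.2.2
    rw [de_x h]
    omega
  · rintro q ⟨hq, hq1, hq2⟩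
    refine ⟨⟨1, (true, y), q, hq, ?_⟩, pi_x h _ hq1, ?_⟩
    · rw [map_one, one_mul]
    · rw [de_x h]
      omega

private theorem S2_dw (h : IsFw i j x π δ Pos) (g : G) {k : ℤ} {a : MonoidAlgebra ℤ Q}
    (ha : Sp (S2 i x π δ Pos k) a) : Sp (S2 i x π δ Pos k) (dw i g a) := by
  unfold dw
  refine Sp.sub (ha.ee_mul _ ?_) ha
  rintro q ⟨⟨g', t, r, hr, rfl⟩, hq1, hq2⟩
  refine ⟨⟨g * g', t, r, hr, ?_⟩, ?_, ?_⟩
  · rw [map_mul, mul_assoc, mul_assoc, mul_assoc]
  · rw [map_mul, h.πi, one_mul, hq1]
  · rw [de_i h]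
    exact hq2

private theorem S_vv (h : IsFw i j x π δ Pos) (om : List (Σ _ : Y, G)) :
    Sp (S1 π δ Pos om.length) (vv i x om).1 ∧
      Sp (S2 i x π δ Pos (2 * (om.length : ℤ) - 1)) (vv i x om).2 := by
  induction om with
  | nil =>
    refine ⟨?_, Sp.zero _⟩
    intro q hq
    have h1 : (vv i x []).1 = ee 1 := rfl
    rw [h1] at hq
    unfold ee at hq
    rw [MonoidAlgebra.coeff_single] at hq
    have : q = 1 := by
      by_contra hne
      exact hq (Finsupp.single_eq_of_ne hne)
    rw [this]
    refine ⟨h.pos.one, map_one _, ?_⟩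
    rw [map_one]
    exact le_refl _
  | cons p om ih =>
    have h1 := S2_dw h p.2 (S2_ww h p.1 ih.1 ih.2)
    refine ⟨Sp.add (ih.1.mono ?_) (h1.ee_mul _ ?_), Sp.add (ih.2.mono ?_) (h1.mono ?_)⟩
    · rintro q ⟨hq, hq1, hq2⟩
      refine ⟨hq, hq1, ?_⟩
      rw [List.length_cons]
      push_cast
      omega
    · intro q hq
      refine ⟨pos_mul h _ (hq.pos h), pi_x h _ hq.2.1, ?_⟩
      have h3 := hq.2.2
      rw [de_x h, List.length_cons]
      push_cast
      omega
    · rintro q ⟨hq, hq1, hq2⟩
      refine ⟨hq, hq1, ?_⟩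
      rw [List.length_cons]
      push_cast
      omega
    · rintro q ⟨hq, hq1, hq2⟩
      refine ⟨hq, hq1, ?_⟩
      rw [List.length_cons]
      push_cast
      omega

/-! ### The coefficient of a reduced word -/

/-- the element of the word `L` -/
private noncomputable def ul (i : G →* Q) (x : Bool × Y → Q) : List (Σ _ : Y, G) → Q
  | [] => 1
  | p :: L => x (false, p.1) * (i p.2 * x (true, p.1) * ul i x L)

private theorem ul_pos (h : IsFw i j x π δ Pos) (L : List (Σ _ : Y, G)) : Pos (ul i x L) := by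
  induction L with
  | nil => exact h.pos.one
  | cons p L ih => exact pos_mul h _ (h.pos.mul _ _ _ ih)

private theorem ul_deg (h : IsFw i j x π δ Pos) (L : List (Σ _ : Y, G)) :
    (δ (ul i x L)).toAdd = 2 * (L.length : ℤ) := by
  induction L with
  | nil =>
    show (δ 1).toAdd = _
    rw [map_one]
    rfl
  | cons p L ih =>
    show (δ (x (false, p.1) * (i p.2 * x (true, p.1) * ul i x L))).toAdd = _
    rw [de_x h, mul_assoc, de_i h, de_x h, ih, List.length_cons]
    push_cast
    ring

private theorem ul_pi (h : IsFw i j x π δ Pos) (L : List (Σ _ : Y, G)) : π (ul i x L) = 1 := by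
  induction L with
  | nil => exact map_one _
  | cons p L ih =>
    show π (x (false, p.1) * (i p.2 * x (true, p.1) * ul i x L)) = 1
    rw [mul_assoc (i p.2)]
    refine pi_x h _ ?_
    rw [map_mul, h.πi, one_mul]
    exact pi_x h _ ih

/-- reduced words -/
private def Red (L : List (Σ _ : Y, G)) : Prop :=
  (∀ l ∈ L, l.2 ≠ 1) ∧ L.IsChain fun l l' => l.1 ≠ l'.1

private theorem ww_coeff (h : IsFw i j x π δ Pos) (y : Y) {k : ℕ} {v1 v2 : MonoidAlgebra ℤ Q}
    (h1 : Sp (S1 π δ Pos k) v1) (h2 : Sp (S2 i x π δ Pos (2 * k - 1)) v2)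
    (h0 : k = 0 → v2 = 0) (L : List (Σ _ : Y, G)) (hk : L.length = k)
    (hL : ∀ p ∈ L.head?, p.1 ≠ y) (g : G) [Decidable (g = 1)] :
    (ww x y v1 v2).coeff (i g * x (true, y) * ul i x L) =
      if g = 1 then v1.coeff (ul i x L) else 0 := by
  have hd : (δ (i g * x (true, y) * ul i x L)).toAdd = 2 * (k : ℤ) + 1 := by
    rw [mul_assoc, de_i h, de_x h, ul_deg h, hk]
    ring
  have e2 : v2.coeff (i g * x (true, y) * ul i x L) = 0 := by
    by_contra hne
    have h3 := (h2 _ hne).2.2
    omega
  have e3 : (ee (x (true, y)) * (ee (x (false, y)) * v2)).coeff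
      (i g * x (true, y) * ul i x L) = 0 := by
    by_contra hne
    rw [ee_mul_coeff, ee_mul_coeff] at hne
    have h3 := h2 _ hne
    have h4 := h3.pos h
    have h5 : i g * x (true, y) * ul i x L = i 1 * x (true, y) * (x (false, y) *
        ((x (false, y))⁻¹ * ((x (true, y))⁻¹ * (i g * x (true, y) * ul i x L)))) := by
      rw [map_one, one_mul, mul_inv_cancel_left, mul_inv_cancel_left]
    obtain ⟨-, -, h6⟩ := h.pos.inj _ _ _ _ _ _ (ul_pos h L) (pos_mul h _ h4) h5
    cases L with
    | nil =>
      have h7 : v2 = 0 := h0 (by rw [← hk]; rfl)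
      rw [h7, MonoidAlgebra.coeff_zero] at hne
      exact hne rfl
    | cons p L =>
      have h8 : i 1 * x (false, p.1) * (i p.2 * x (true, p.1) * ul i x L) =
          i 1 * x (false, y) * ((x (false, y))⁻¹ *
            ((x (true, y))⁻¹ * (i g * x (true, y) * ul i x (p :: L)))) := by
        rw [map_one, one_mul, one_mul]
        exact h6
      obtain ⟨-, h9, -⟩ := h.pos.inj _ _ _ _ _ _ (h.pos.mul _ _ _ (ul_pos h L)) h4 h8
      exact hL p rfl (congrArg Prod.snd h9)
  have e1 : (ee (x (true, y)) * v1).coeff (i g * x (true, y) * ul i x L) =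
      if g = 1 then v1.coeff (ul i x L) else 0 := by
    rw [ee_mul_coeff]
    split_ifs with hg
    · rw [hg, map_one, one_mul, inv_mul_cancel_left]
    · by_contra hne
      apply hg
      have h3 := h1 _ hne
      have h5 : i g * x (true, y) * ul i x L = i 1 * x (true, y) *
          ((x (true, y))⁻¹ * (i g * x (true, y) * ul i x L)) := by
        rw [map_one, one_mul, mul_inv_cancel_left]
      exact (h.pos.inj _ _ _ _ _ _ (ul_pos h L) h3.1 h5).1
  unfold ww
  rw [MonoidAlgebra.coeff_sub, Finsupp.sub_apply, MonoidAlgebra.coeff_add, Finsupp.add_apply, e1, e2,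
    e3, add_zero, sub_zero]

private theorem vv_zero (om : List (Σ _ : Y, G)) (h : om.length = 0) : (vv i x om).2 = 0 := by
  rw [List.length_eq_zero_iff.1 h]
  rfl

open Classical in
private theorem vv_coeff (h : IsFw i j x π δ Pos) (om : List (Σ _ : Y, G)) :
    ∀ L : List (Σ _ : Y, G), Red L → L.length = om.length →
      (vv i x om).1.coeff (ul i x L) = if L = om then 1 else 0 := by
  induction om with
  | nil =>
    intro L _ hL
    rw [List.length_nil, List.length_eq_zero_iff] at hL
    rw [hL, if_pos rfl]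
    show (ee (1 : Q)).coeff 1 = 1
    unfold ee
    rw [MonoidAlgebra.coeff_single, Finsupp.single_eq_same]
  | cons p om ih =>
    intro L hred hL
    cases L with
    | nil => exact absurd hL (by rw [List.length_nil, List.length_cons]; omega)
    | cons q L =>
      rw [List.length_cons, List.length_cons, add_left_inj] at hL
      have hS := S_vv h om
      have hD := S2_dw h p.2 (S2_ww h p.1 hS.1 hS.2)
      have hred' : Red L := by
        refine ⟨fun l hl => hred.1 l (List.mem_cons_of_mem _ hl), ?_⟩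
        exact hred.2.tail
      have hhead : ∀ l ∈ L.head?, l.1 ≠ q.1 := by
        intro l hl hne
        cases L with
        | nil => exact absurd hl (by simp)
        | cons r L =>
          have h1 : r = l := by
            rw [List.head?_cons, Option.mem_some_iff] at hl
            exact hl
          have h2 := hred.2
          rw [List.isChain_cons_cons] at h2
          exact h2.1 (by rw [h1, hne])
      have e0 : (vv i x om).1.coeff (ul i x (q :: L)) = 0 := by
        by_contra hne
        have h1 := (hS.1 _ hne).2.2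
        rw [ul_deg h, List.length_cons, hL] at h1
        push_cast at h1
        omega
      show ((vv i x om).1 + ee (x (false, p.1)) *
        dw i p.2 (ww x p.1 (vv i x om).1 (vv i x om).2)).coeff (ul i x (q :: L)) = _
      rw [MonoidAlgebra.coeff_add, Finsupp.add_apply, e0, zero_add, ee_mul_coeff]
      by_cases hy : q.1 = p.1
      · have e1 : (x (false, p.1))⁻¹ * ul i x (q :: L) = i q.2 * x (true, p.1) * ul i x L := by
          show (x (false, p.1))⁻¹ * (x (false, q.1) * (i q.2 * x (true, q.1) * ul i x L)) = _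
          rw [hy, inv_mul_cancel_left]
        have e2 : (i p.2)⁻¹ * (i q.2 * x (true, p.1) * ul i x L) =
            i (p.2⁻¹ * q.2) * x (true, p.1) * ul i x L := by
          rw [map_mul, map_inv, mul_assoc, mul_assoc, mul_assoc]
        rw [e1]
        unfold dw
        rw [MonoidAlgebra.coeff_sub, Finsupp.sub_apply, ee_mul_coeff, e2]
        have hh : ∀ l ∈ L.head?, l.1 ≠ p.1 := by
          intro l hl
          rw [← hy]
          exact hhead l hl
        rw [ww_coeff h p.1 hS.1 hS.2 (fun h3 => vv_zero om h3) L hL hh,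
          ww_coeff h p.1 hS.1 hS.2 (fun h3 => vv_zero om h3) L hL hh, ih L hred' hL,
          if_neg (hred.1 q List.mem_cons_self), sub_zero]
        by_cases hg : p.2 = q.2
        · have hpq : p = q := by
            obtain ⟨p1, p2⟩ := p
            obtain ⟨q1, q2⟩ := q
            simp only at hy hg
            subst hy
            subst hg
            rfl
          rw [if_pos (by rw [hg, inv_mul_cancel]), hpq]
          by_cases hLo : L = om
          · rw [if_pos hLo, if_pos (by rw [hLo])]
          · rw [if_neg hLo, if_neg (fun h3 => hLo (List.cons.inj h3).2)]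
        · rw [if_neg (fun h3 => hg (inv_mul_eq_one.1 h3)),
            if_neg (fun h3 => hg (by rw [(List.cons.inj h3).1]))]
      · rw [if_neg (fun h3 => hy (by rw [(List.cons.inj h3).1]))]
        by_contra hne
        apply hy
        have h1 := (hD _ hne).pos h
        have h8 : i 1 * x (false, q.1) * (i q.2 * x (true, q.1) * ul i x L) =
            i 1 * x (false, p.1) * ((x (false, p.1))⁻¹ * ul i x (q :: L)) := by
          rw [map_one, one_mul, one_mul, mul_inv_cancel_left]
          rfl
        obtain ⟨-, h9, -⟩ := h.pos.inj _ _ _ _ _ _ (h.pos.mul _ _ _ (ul_pos h L)) h1 h8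
        exact congrArg Prod.snd h9

end

theorem exists_repFw {G N Y Q : Type u} [Group G] [Group N] [MulAction N Y] [Group Q] {i : G →* Q}
    {j : N →* Q} {x : Bool × Y → Q} {π : Q →* N} {δ : Q →* Multiplicative ℤ} {Pos : Q → Prop}
    (h : IsFw i j x π δ Pos) :
    ∃ a : FreeWreath G N Y →* Matrix (Fin 2) (Fin 2) (MonoidAlgebra ℤ Q), IsTri a := by
  classical
  refine ⟨ab h, ?_⟩
  intro F hF
  let om : FreeWreath G N Y → List (Σ _ : Y, G) := fun s => (Monoid.CoprodI.Word.equiv s.left).toList
  have hom : ∀ s, s.left = wp (om s) := fun s =>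
    ((Monoid.CoprodI.Word.equiv (M := fun _ : Y => G)).symm_apply_apply s.left).symm
  have hred : ∀ s, Red (om s) := fun s =>
    ⟨(Monoid.CoprodI.Word.equiv s.left).ne_one, (Monoid.CoprodI.Word.equiv s.left).chain_ne⟩
  obtain ⟨s, hs, hmax⟩ := F.exists_max_image (fun s => (om s).length) hF
  refine ⟨s, hs, 0, 0, ul i x (om s) * j s.right, ?_, ?_⟩
  · rw [ab_coeff h s (om s) (hom s), mul_inv_cancel_right, vv_coeff h _ _ (hred s) rfl, if_pos rfl]
    exact isUnit_one
  · intro s' hs' hne
    rw [ab_coeff h s' (om s') (hom s')]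
    by_contra hcon
    have h1 := (S_vv h (om s')).1 _ hcon
    have h2 : s.right = s'.right := by
      have h3 := h1.2.1
      rw [map_mul, map_mul, map_inv, ul_pi h, h.πj, h.πj, one_mul] at h3
      exact mul_inv_eq_one.1 h3
    rw [h2, mul_inv_cancel_right] at hcon h1
    have h4 := h1.2.2
    rw [ul_deg h] at h4
    have h5 : (om s).length = (om s').length := by
      have h6 := hmax s' hs'
      omega
    rw [vv_coeff h _ _ (hred s) h5] at hcon
    by_cases h6 : om s = om s'
    · apply hne
      refine SemidirectProduct.ext ?_ h2.symm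
      rw [hom s, hom s', h6]
    · rw [if_neg h6] at hcon
      exact hcon rfl

end Pool.Agent.H36.GY
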