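import Pool.Agent.H36.GY.Base
import Pool.Agent.H36.GX.Pos

/-!
# Project GY: the monoid of words over a group in `It C` embeds in a group in `It C`
-/

set_option autoImplicit false

namespace Pool.Agent.H36.GY

open Pool.Agent.H66.NCL Pool.Agent.H36.OX Pool.Agent.H36.GX

universe u

private theorem pmE_nil {Q T Q' : Type u} [Group Q] [Group Q'] (i : Q →* Q') (x : Option T → Q')
    (y : Q) : PM.lift i (fun t => x (some t)) (⟨[], y⟩ : PM Q T) * x none =
      i y * x none * 1 := by
  rw [PM.lift_nil, mul_one]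

private theorem pmE_cons {Q T Q' : Type u} [Group Q] [Group Q'] (i : Q →* Q') (x : Option T → Q')
    (a : Q × T) (l : List (Q × T)) (y : Q) :
    PM.lift i (fun t => x (some t)) (⟨a :: l, y⟩ : PM Q T) * x none =
      i a.1 * x (some a.2) * (PM.lift i (fun t => x (some t)) (⟨l, y⟩ : PM Q T) * x none) := by
  rw [PM.lift_cons]
  simp only [mul_assoc]

private theorem pmE_pos {Q T Q' : Type u} [Group Q] [Group Q'] {i : Q →* Q'} {x : Option T → Q'}
    {Pos : Q' → Prop} (h : IsPos i x Pos) (l : List (Q × T)) (y : Q) :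
    Pos (PM.lift i (fun t => x (some t)) (⟨l, y⟩ : PM Q T) * x none) := by
  induction l with
  | nil =>
    rw [pmE_nil]
    exact h.mul _ _ _ h.one
  | cons a l ih =>
    rw [pmE_cons]
    exact h.mul _ _ _ ih

private theorem pmE_inj {Q T Q' : Type u} [Group Q] [Group Q'] {i : Q →* Q'} {x : Option T → Q'}
    {Pos : Q' → Prop} (h : IsPos i x Pos) (l : List (Q × T)) (y : Q) (l' : List (Q × T)) (y' : Q)
    (he : PM.lift i (fun t => x (some t)) (⟨l, y⟩ : PM Q T) * x none =
      PM.lift i (fun t => x (some t)) (⟨l', y'⟩ : PM Q T) * x none) : l = l' ∧ y = y' := by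
  induction l generalizing l' with
  | nil =>
    cases l' with
    | nil =>
      rw [pmE_nil, pmE_nil] at he
      exact ⟨rfl, (h.inj _ _ _ _ _ _ h.one h.one he).1⟩
    | cons a' l' =>
      rw [pmE_nil, pmE_cons] at he
      have h1 := (h.inj _ _ _ _ _ _ h.one (pmE_pos h l' y') he).2.1
      exact absurd h1 (by simp)
  | cons a l ih =>
    cases l' with
    | nil =>
      rw [pmE_nil, pmE_cons] at he
      have h1 := (h.inj _ _ _ _ _ _ (pmE_pos h l y) h.one he).2.1
      exact absurd h1 (by simp)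
    | cons a' l' =>
      rw [pmE_cons, pmE_cons] at he
      obtain ⟨h1, h2, h3⟩ := h.inj _ _ _ _ _ _ (pmE_pos h l y) (pmE_pos h l' y') he
      obtain ⟨h4, h5⟩ := ih l' h3
      exact ⟨by rw [Prod.ext h1 (Option.some.inj h2), h4], h5⟩

theorem exists_pm_emb {C : (G : Type u) → [Group G] → Prop}
    (hC : ∀ (G : Type u) [Group G], TFSolv G → C G) {Q : Type u} [Group Q] (hQ : It C Q)
    (T : Type u) [Finite T] :
    ∃ (Q' : Type u) (_ : Group Q') (f : PM Q T →* Q'), It C Q' ∧ Function.Injective f := by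
  obtain ⟨Q', _, i, x, Pos, hQ', hpos⟩ := It.exists_pos hC hQ (Option T)
  refine ⟨Q', inferInstance, PM.lift i fun t => x (some t), hQ', ?_⟩
  rintro ⟨l, y⟩ ⟨l', y'⟩ he
  obtain ⟨h1, h2⟩ := pmE_inj hpos l y l' y' (congrArg (· * x none) he)
  rw [h1, h2]

end Pool.Agent.H36.GY
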