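import Pool.Agent.H36.GY.Base

/-!
# Project GY, TB1: a representation of the words over `X` from one of `X`

`a' = PM.lift (a followed by the inclusion of `Q` in the words) (t ↦ the matrix of the letters (t, i, j))`. For a
word `p = x₀ t p'` one has `a'(p)_{r,c} = ∑_{i,j} a(x₀)_{r,i} (t,i,j) a'(p')_{j,c}`.
-/

set_option autoImplicit false

namespace Pool.Agent.H36.GY

open Pool.Agent.H66.NCL Pool.Agent.H36.OX Pool.Agent.H36.GX

universe u v w

section coefficients

variable {Q : Type u} {T' : Type v} [Monoid Q]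

private lemma pmT_e_nil (f : MonoidAlgebra ℤ Q) (q : Q) :
    (MonoidAlgebra.mapDomainRingHom ℤ (PM.of Q T') f).coeff ⟨[], q⟩ = f.coeff q := by
  classical
  induction f using MonoidAlgebra.induction_linear with
  | zero => rw [map_zero, MonoidAlgebra.coeff_zero, MonoidAlgebra.coeff_zero, Finsupp.zero_apply, Finsupp.zero_apply]
  | add f g hf hg =>
    rw [map_add, MonoidAlgebra.coeff_add, Finsupp.add_apply, hf, hg, MonoidAlgebra.coeff_add, Finsupp.add_apply]
  | single b r =>
    rw [MonoidAlgebra.mapDomainRingHom_apply, MonoidAlgebra.mapDomain_single, MonoidAlgebra.coeff_single,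
      MonoidAlgebra.coeff_single, Finsupp.single_apply, Finsupp.single_apply]
    by_cases h : b = q
    · subst h
      rw [if_pos (show PM.of Q T' b = ⟨[], b⟩ from rfl), if_pos rfl]
    · rw [if_neg h, if_neg]
      intro h1
      exact h (congrArg PM.x h1)

private lemma pmT_e_cons (f : MonoidAlgebra ℤ Q) (b : Q × T') (m : List (Q × T')) (q : Q) :
    (MonoidAlgebra.mapDomainRingHom ℤ (PM.of Q T') f).coeff ⟨b :: m, q⟩ = 0 := by
  classical
  induction f using MonoidAlgebra.induction_linear with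
  | zero => rw [map_zero, MonoidAlgebra.coeff_zero, Finsupp.zero_apply]
  | add f g hf hg =>
    rw [map_add, MonoidAlgebra.coeff_add, Finsupp.add_apply, hf, hg, add_zero]
  | single c r =>
    rw [MonoidAlgebra.mapDomainRingHom_apply, MonoidAlgebra.mapDomain_single, MonoidAlgebra.coeff_single,
      Finsupp.single_apply, if_neg]
    intro h1
    exact absurd (congrArg PM.l h1) (by
      show ¬ ([] : List (Q × T')) = b :: m
      exact List.cons_ne_nil b m |>.symm)

private lemma pmT_prod_nil (f : MonoidAlgebra ℤ Q) (s : T') (h : MonoidAlgebra ℤ (PM Q T')) (q : Q) :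
    (MonoidAlgebra.mapDomainRingHom ℤ (PM.of Q T') f * (MonoidAlgebra.single (PM.tt Q s) 1 * h)).coeff
      ⟨[], q⟩ = 0 := by
  classical
  induction f using MonoidAlgebra.induction_linear with
  | zero => rw [map_zero, zero_mul, MonoidAlgebra.coeff_zero, Finsupp.zero_apply]
  | add f g hf hg =>
    rw [map_add, add_mul, MonoidAlgebra.coeff_add, Finsupp.add_apply, hf, hg, add_zero]
  | single b r =>
    induction h using MonoidAlgebra.induction_linear with
    | zero => rw [mul_zero, mul_zero, MonoidAlgebra.coeff_zero, Finsupp.zero_apply]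
    | add f g hf hg =>
      rw [mul_add, mul_add, MonoidAlgebra.coeff_add, Finsupp.add_apply, hf, hg, add_zero]
    | single c r' =>
      rw [MonoidAlgebra.mapDomainRingHom_apply, MonoidAlgebra.mapDomain_single, MonoidAlgebra.single_mul_single,
        MonoidAlgebra.single_mul_single, PM.tt_mul, PM.of_mul_cons, MonoidAlgebra.coeff_single,
        Finsupp.single_apply, if_neg]
      intro h1
      exact absurd (congrArg PM.l h1) (List.cons_ne_nil _ _)

private lemma pmT_prod_cons (f : MonoidAlgebra ℤ Q) (s : T') (h : MonoidAlgebra ℤ (PM Q T')) (q0 : Q) (s1 : T')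
    (m : List (Q × T')) (q : Q) :
    (MonoidAlgebra.mapDomainRingHom ℤ (PM.of Q T') f * (MonoidAlgebra.single (PM.tt Q s) 1 * h)).coeff
      ⟨(q0, s1) :: m, q⟩ = open Classical in if s = s1 then f.coeff q0 * h.coeff ⟨m, q⟩ else 0 := by
  classical
  induction f using MonoidAlgebra.induction_linear with
  | zero =>
    rw [map_zero, zero_mul, MonoidAlgebra.coeff_zero, MonoidAlgebra.coeff_zero, Finsupp.zero_apply,
      Finsupp.zero_apply, zero_mul, ite_self]
  | add f g hf hg =>
    rw [map_add, add_mul, MonoidAlgebra.coeff_add, Finsupp.add_apply, hf, hg, MonoidAlgebra.coeff_add,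
      Finsupp.add_apply, add_mul]
    split_ifs
    · rfl
    · rw [add_zero]
  | single b r =>
    induction h using MonoidAlgebra.induction_linear with
    | zero =>
      rw [mul_zero, mul_zero, MonoidAlgebra.coeff_zero, Finsupp.zero_apply, Finsupp.zero_apply, mul_zero,
        ite_self]
    | add f g hf hg =>
      rw [mul_add, mul_add, MonoidAlgebra.coeff_add, Finsupp.add_apply, hf, hg, MonoidAlgebra.coeff_add,
        Finsupp.add_apply, mul_add]
      split_ifs
      · rfl
      · rw [add_zero]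
    | single c r' =>
      rw [MonoidAlgebra.mapDomainRingHom_apply, MonoidAlgebra.mapDomain_single, MonoidAlgebra.single_mul_single,
        MonoidAlgebra.single_mul_single, PM.tt_mul, PM.of_mul_cons, MonoidAlgebra.coeff_single,
        MonoidAlgebra.coeff_single, MonoidAlgebra.coeff_single, Finsupp.single_apply, Finsupp.single_apply,
        Finsupp.single_apply, mul_one, one_mul]
      by_cases h1 : s = s1
      · subst h1
        rw [if_pos rfl]
        by_cases h2 : b = q0
        · subst h2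
          rw [if_pos rfl]
          by_cases h3 : c = ⟨m, q⟩
          · subst h3
            rw [if_pos rfl, if_pos rfl]
          · rw [if_neg h3, if_neg, mul_zero]
            intro h4
            apply h3
            have h5 := congrArg PM.l h4
            have h6 := congrArg PM.x h4
            simp only [List.cons.injEq] at h5
            exact PM.ext h5.2 h6
        · rw [if_neg h2, if_neg, zero_mul]
          intro h4
          apply h2
          have h5 := congrArg PM.l h4
          simp only [List.cons.injEq, Prod.mk.injEq] at h5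
          exact h5.1.1
      · rw [if_neg h1, if_neg]
        intro h4
        apply h1
        have h5 := congrArg PM.l h4
        simp only [List.cons.injEq, Prod.mk.injEq] at h5
        exact h5.1.2

end coefficients

section main

variable {X Q : Type u} {D : Type} [Monoid X] [Monoid Q] [Fintype D] [DecidableEq D]

/-- the representation of the words -/
private noncomputable def pmT (a : X →* Matrix D D (MonoidAlgebra ℤ Q)) (T : Type u) :
    PM X T →* Matrix D D (MonoidAlgebra ℤ (PM Q (T × D × D))) :=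
  PM.lift
    (((MonoidAlgebra.mapDomainRingHom ℤ (PM.of Q (T × D × D))).mapMatrix :
      Matrix D D (MonoidAlgebra ℤ Q) →+* Matrix D D (MonoidAlgebra ℤ (PM Q (T × D × D)))).toMonoidHom.comp a)
    (fun t => Matrix.of fun i j => MonoidAlgebra.single (PM.tt Q (t, i, j)) 1)

variable (a : X →* Matrix D D (MonoidAlgebra ℤ Q)) (T : Type u)

private lemma pmT_nil (x : X) (r c : D) :
    pmT a T ⟨[], x⟩ r c = MonoidAlgebra.mapDomainRingHom ℤ (PM.of Q (T × D × D)) (a x r c) := by
  unfold pmT
  rw [PM.lift_nil]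
  rfl

private lemma pmT_cons (x0 : X) (t : T) (l : List (X × T)) (x : X) (r c : D) :
    pmT a T ⟨(x0, t) :: l, x⟩ r c = ∑ i, ∑ j, MonoidAlgebra.mapDomainRingHom ℤ (PM.of Q (T × D × D)) (a x0 r i) *
      (MonoidAlgebra.single (PM.tt Q (t, i, j)) 1 * pmT a T ⟨l, x⟩ j c) := by
  unfold pmT
  rw [PM.lift_cons, Matrix.mul_apply]
  refine Finset.sum_congr rfl fun i _ => ?_
  rw [Matrix.mul_apply, Finset.mul_sum]
  rfl

private lemma pmT_coeff_nil_nil (x : X) (r c : D) (q : Q) :
    (pmT a T ⟨[], x⟩ r c).coeff ⟨[], q⟩ = (a x r c).coeff q := by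
  rw [pmT_nil, pmT_e_nil]

private lemma pmT_coeff_nil_cons (x : X) (r c : D) (b : Q × (T × D × D)) (m : List (Q × (T × D × D))) (q : Q) :
    (pmT a T ⟨[], x⟩ r c).coeff ⟨b :: m, q⟩ = 0 := by
  rw [pmT_nil, pmT_e_cons]

private lemma pmT_coeff_cons_nil (x0 : X) (t : T) (l : List (X × T)) (x : X) (r c : D) (q : Q) :
    (pmT a T ⟨(x0, t) :: l, x⟩ r c).coeff ⟨[], q⟩ = 0 := by
  rw [pmT_cons, MonoidAlgebra.coeff_sum, Finsupp.finsetSum_apply]
  refine Finset.sum_eq_zero fun i _ => ?_
  rw [MonoidAlgebra.coeff_sum, Finsupp.finsetSum_apply]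
  exact Finset.sum_eq_zero fun j _ => pmT_prod_nil _ _ _ _

private lemma pmT_coeff_cons_cons (x0 : X) (t : T) (l : List (X × T)) (x : X) (r c : D) (q0 : Q) (t1 : T) (i j : D)
    (m : List (Q × (T × D × D))) (q : Q) :
    (pmT a T ⟨(x0, t) :: l, x⟩ r c).coeff ⟨(q0, (t1, i, j)) :: m, q⟩ =
      open Classical in if t = t1 then (a x0 r i).coeff q0 * (pmT a T ⟨l, x⟩ j c).coeff ⟨m, q⟩ else 0 := by
  classical
  rw [pmT_cons, MonoidAlgebra.coeff_sum, Finsupp.finsetSum_apply, Finset.sum_eq_single i]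
  · rw [MonoidAlgebra.coeff_sum, Finsupp.finsetSum_apply, Finset.sum_eq_single j]
    · rw [pmT_prod_cons]
      by_cases h : t = t1
      · subst h
        rw [if_pos rfl, if_pos rfl]
      · rw [if_neg h, if_neg]
        intro h1
        exact h (congrArg Prod.fst h1)
    · intro j' _ hj
      rw [pmT_prod_cons, if_neg]
      intro h1
      exact hj (congrArg (fun z => z.2.2) h1)
    · intro h
      exact absurd (Finset.mem_univ j) h
  · intro i' _ hi
    rw [MonoidAlgebra.coeff_sum, Finsupp.finsetSum_apply]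
    refine Finset.sum_eq_zero fun j' _ => ?_
    rw [pmT_prod_cons, if_neg]
    intro h1
    exact hi (congrArg (fun z => z.2.1) h1)
  · intro h
    exact absurd (Finset.mem_univ i) h

private lemma pmT_isTri (h : IsTri a) (n : ℕ) : ∀ F : Finset (PM X T), F.Nonempty →
    (∀ p ∈ F, p.l.length ≤ n) → ∃ s ∈ F, ∃ (i j : D) (q : PM Q (T × D × D)),
      IsUnit ((pmT a T s i j).coeff q) ∧ ∀ s' ∈ F, s' ≠ s → (pmT a T s' i j).coeff q = 0 := by
  classical
  -- the case in which some member is in `X`
  have key : ∀ F : Finset (PM X T), (∃ x : X, (⟨[], x⟩ : PM X T) ∈ F) → ∃ s ∈ F, ∃ (i j : D)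
      (q : PM Q (T × D × D)), IsUnit ((pmT a T s i j).coeff q) ∧
        ∀ s' ∈ F, s' ≠ s → (pmT a T s' i j).coeff q = 0 := by
    intro F hF
    obtain ⟨x₁, hx₁⟩ := hF
    set F0 : Finset X := (F.filter fun p => p.l = []).image PM.x with hF0
    have m0 : ∀ x, x ∈ F0 ↔ (⟨[], x⟩ : PM X T) ∈ F := by
      intro x
      rw [hF0, Finset.mem_image]
      constructor
      · rintro ⟨p, hp, rfl⟩
        obtain ⟨hp1, hp2⟩ := Finset.mem_filter.1 hp
        have : p = ⟨[], p.x⟩ := PM.ext hp2 rfl
        rwa [← this]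
      · intro hx
        exact ⟨⟨[], x⟩, Finset.mem_filter.2 ⟨hx, rfl⟩, rfl⟩
    obtain ⟨x, hx, i, j, q, hu, hz⟩ := h F0 ⟨x₁, (m0 x₁).2 hx₁⟩
    refine ⟨⟨[], x⟩, (m0 x).1 hx, i, j, ⟨[], q⟩, ?_, ?_⟩
    · rwa [pmT_coeff_nil_nil]
    · rintro ⟨l, y⟩ hs' hne
      cases l with
      | nil =>
        rw [pmT_coeff_nil_nil]
        refine hz y ((m0 y).2 hs') ?_
        rintro rfl
        exact hne rfl
      | cons b l =>
        obtain ⟨x0, t⟩ := b
        exact pmT_coeff_cons_nil a T x0 t l y i j q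
  induction n with
  | zero =>
    intro F hF hlen
    apply key
    obtain ⟨p, hp⟩ := hF
    have h1 : p.l = [] := List.length_eq_zero_iff.1 (Nat.le_zero.1 (hlen p hp))
    have : p = ⟨[], p.x⟩ := PM.ext h1 rfl
    exact ⟨p.x, by rwa [← this]⟩
  | succ n ih =>
    intro F hF hlen
    by_cases hnil : ∃ x : X, (⟨[], x⟩ : PM X T) ∈ F
    · exact key F hnil
    obtain ⟨⟨l₀, y₀⟩, hp₀⟩ := hF
    cases l₀ with
    | nil => exact absurd ⟨y₀, hp₀⟩ hnil
    | cons b₀ l₀ =>
    obtain ⟨z₀, t⟩ := b₀
    set F1 : Finset X := (F.filter fun p => ∃ x0 l, p.l = (x0, t) :: l).image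
      (fun p => (p.l.head?.map Prod.fst).getD 1) with hF1
    have m1 : ∀ x0, x0 ∈ F1 ↔ ∃ l x, (⟨(x0, t) :: l, x⟩ : PM X T) ∈ F := by
      intro x0
      rw [hF1, Finset.mem_image]
      constructor
      · rintro ⟨⟨l, x⟩, hp, rfl⟩
        obtain ⟨hp1, x1, l1, hp2⟩ := Finset.mem_filter.1 hp
        simp only at hp2
        subst hp2
        exact ⟨l1, x, hp1⟩
      · rintro ⟨l, x, hx⟩
        exact ⟨_, Finset.mem_filter.2 ⟨hx, x0, l, rfl⟩, rfl⟩
    obtain ⟨x0, hx0, r, i, q0, hu, hz⟩ := h F1 ⟨z₀, (m1 z₀).2 ⟨l₀, y₀, hp₀⟩⟩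
    set F2 : Finset (PM X T) := (F.filter fun p => ∃ l, p.l = (x0, t) :: l).image
      (fun p => ⟨p.l.tail, p.x⟩) with hF2
    have m2 : ∀ p : PM X T, p ∈ F2 ↔ (⟨(x0, t) :: p.l, p.x⟩ : PM X T) ∈ F := by
      intro p
      rw [hF2, Finset.mem_image]
      constructor
      · rintro ⟨⟨l, x⟩, hp, rfl⟩
        obtain ⟨hp1, l1, hp2⟩ := Finset.mem_filter.1 hp
        simp only at hp2
        subst hp2
        exact hp1
      · intro hx
        exact ⟨_, Finset.mem_filter.2 ⟨hx, p.l, rfl⟩, rfl⟩
    obtain ⟨l1, x1, hl1⟩ := (m1 x0).1 hx0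
    obtain ⟨p', hp', j, c, w, hu', hz'⟩ := ih F2 ⟨⟨l1, x1⟩, (m2 _).2 hl1⟩ (by
      intro p hp
      have := hlen _ ((m2 p).1 hp)
      simp only [List.length_cons] at this
      omega)
    refine ⟨⟨(x0, t) :: p'.l, p'.x⟩, (m2 p').1 hp', r, c, ⟨(q0, (t, i, j)) :: w.l, w.x⟩, ?_, ?_⟩
    · rw [pmT_coeff_cons_cons, if_pos rfl]
      exact hu.mul hu'
    · rintro ⟨l, y⟩ hs' hne
      cases l with
      | nil => exact absurd ⟨y, hs'⟩ hnil
      | cons b l =>
        obtain ⟨x2, t2⟩ := b
        rw [pmT_coeff_cons_cons]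
        by_cases h2 : t2 = t
        · subst h2
          rw [if_pos rfl]
          by_cases h3 : x2 = x0
          · subst h3
            have h4 : (pmT a T ⟨l, y⟩ j c).coeff w = 0 := by
              refine hz' ⟨l, y⟩ ((m2 ⟨l, y⟩).2 hs') ?_
              rintro rfl
              exact hne rfl
            have h5 : (pmT a T ⟨l, y⟩ j c).coeff ⟨w.l, w.x⟩ = 0 := h4
            rw [h5, mul_zero]
          · rw [hz x2 ((m1 x2).2 ⟨l, y, hs'⟩) h3, zero_mul]
        · rw [if_neg h2]

theorem exists_isTri_pm {X Q : Type u} {D : Type} [Monoid X] [Monoid Q] [Fintype D] [DecidableEq D]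
    (a : X →* Matrix D D (MonoidAlgebra ℤ Q)) (h : IsTri a) (T : Type u) :
    ∃ a' : PM X T →* Matrix D D (MonoidAlgebra ℤ (PM Q (T × D × D))), IsTri a' := by
  refine ⟨pmT a T, fun F hF => ?_⟩
  exact pmT_isTri a T h (F.sup fun p => p.l.length) F hF fun p hp =>
    Finset.le_sup (f := fun p : PM X T => p.l.length) hp

end main

end Pool.Agent.H36.GY
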