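import Pool.Agent.H36.GY.Base
import Pool.Agent.H36.GX.GP

/-!
# Project GY: the generic representation of a graph product over the monoid algebra of the words
-/

set_option autoImplicit false
set_option linter.unusedSectionVars false

namespace Pool.Agent.H36.GY

open Pool.Agent.H66.NCL Pool.Agent.H36.OX Pool.Agent.H36.GX

universe u v w

section

variable {V X : Type u} [Group X] (E : SimpleGraph V)

/-- the coefficient ring -/
private abbrev RR (V X : Type u) [Group X] : Type u := MonoidAlgebra ℤ (PM X (V × Option V))

private noncomputable def eg (V : Type u) {X : Type u} [Group X] (g : X) : RR V X :=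
  MonoidAlgebra.single (PM.of X (V × Option V) g) 1

private noncomputable def el {V : Type u} (X : Type u) [Group X] (t : V × Option V) : RR V X :=
  MonoidAlgebra.single (PM.tt X t) 1

private theorem eg_one : eg V (1 : X) = 1 := by
  unfold eg
  rw [map_one]
  rfl

private theorem eg_mul (g h : X) : eg V (g * h) = eg V g * eg V h := by
  unfold eg
  rw [MonoidAlgebra.single_mul_single, map_mul, one_mul]

open Classical in
/-- the generic coordinates -/
private noncomputable def xi (v : V) (c : Option V) : RR V X :=
  if c = some v then 1 else if (∃ w, E.Adj v w ∧ c = some w) then 0 else el X (v, c)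

private theorem xi_self (v : V) : xi (X := X) E v (some v) = 1 := by
  unfold xi
  rw [if_pos rfl]

private theorem xi_adj {v w : V} (h : E.Adj v w) : xi (X := X) E v (some w) = 0 := by
  unfold xi
  rw [if_neg (fun hh => h.ne (Option.some.inj hh).symm), if_pos ⟨w, h, rfl⟩]

private theorem xi_nc {v w : V} (h : nc E v w) : xi (X := X) E v (some w) = el X (v, some w) := by
  unfold xi
  rw [if_neg (fun hh => h.1 (Option.some.inj hh).symm), if_neg]
  rintro ⟨w', h', he⟩
  obtain rfl := Option.some.inj he
  exact h.2 h'

private theorem xi_none (v : V) : xi (X := X) E v none = el X (v, none) := by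
  unfold xi
  rw [if_neg (fun h => Option.some_ne_none _ h.symm), if_neg]
  rintro ⟨w', h', he⟩
  exact Option.some_ne_none _ he.symm

variable [Fintype V] [DecidableEq V]

/-- the matrices of rank one -/
private noncomputable def nM (v : V) (m : RR V X) : Matrix (Option V) (Option V) (RR V X) :=
  Matrix.of fun r c => if r = some v then m * xi E v c else 0

private theorem nM_apply (v : V) (m : RR V X) (r c : Option V) :
    nM E v m r c = if r = some v then m * xi E v c else 0 := rfl

private theorem nM_add (v : V) (m m' : RR V X) : nM E v (m + m') = nM E v m + nM E v m' := by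
  ext1 r c
  rw [Matrix.add_apply, nM_apply, nM_apply, nM_apply]
  split_ifs
  · rw [add_mul]
  · rw [add_zero]

private theorem nM_zero (v : V) : nM (X := X) E v 0 = 0 := by
  ext1 r c
  rw [nM_apply, zero_mul, ite_self]
  rfl

private theorem nM_mul (v : V) (m m' : RR V X) : nM E v m * nM E v m' = nM E v (m * m') := by
  ext1 r c
  rw [Matrix.mul_apply, Finset.sum_eq_single (some v)]
  · rw [nM_apply, nM_apply, nM_apply, if_pos rfl, xi_self, mul_one]
    split_ifs
    · rw [mul_assoc]
    · rw [zero_mul]
  · intro d _ hd
    rw [nM_apply E v m' d c, if_neg hd, mul_zero]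
  · intro h
    exact absurd (Finset.mem_univ _) h

private theorem nM_mul_adj {v w : V} (h : E.Adj v w) (m m' : RR V X) :
    nM E v m * nM E w m' = 0 := by
  ext1 r c
  rw [Matrix.mul_apply, Finset.sum_eq_single (some w)]
  · rw [nM_apply, nM_apply, xi_adj E h, mul_zero, ite_self, zero_mul]
    rfl
  · intro d _ hd
    rw [nM_apply E w m' d c, if_neg hd, mul_zero]
  · intro h
    exact absurd (Finset.mem_univ _) h

/-- the representation of the vertex group -/
private noncomputable def rM (v : V) : X →* Matrix (Option V) (Option V) (RR V X) where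
  toFun g := 1 + nM E v (eg V g - 1)
  map_one' := by rw [eg_one, sub_self, nM_zero, add_zero]
  map_mul' g h := by
    rw [add_mul, mul_add, mul_add, one_mul, mul_one, one_mul, nM_mul, add_assoc]
    congr 1
    rw [← add_assoc, ← nM_add, ← nM_add, eg_mul]
    congr 1
    noncomm_ring

private theorem rM_apply (v : V) (g : X) : rM E v g = 1 + nM E v (eg V g - 1) := rfl

private theorem rM_commute (v w : V) (h : E.Adj v w) (g g' : X) :
    Commute (rM E v g) (rM E w g') := by
  show _ * _ = _ * _
  rw [rM_apply, rM_apply, add_mul, add_mul, mul_add, mul_add, mul_add, mul_add, nM_mul_adj E h,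
    nM_mul_adj E h.symm]
  simp only [one_mul, mul_one, add_zero]
  abel

/-! ### The column of `none` -/

open Classical in
private noncomputable def yy (v : V) (M : Matrix (Option V) (Option V) (RR V X)) : RR V X :=
  ∑ c, if (c = none ∨ ∃ w, nc E v w ∧ c = some w) then el X (v, c) * M c none else 0

open Classical in
private theorem xi_mul (v : V) (M : Matrix (Option V) (Option V) (RR V X)) :
    ∑ c, xi E v c * M c none = M (some v) none + yy E v M := by
  have key : ∀ c, xi E v c * M c none = (if c = some v then M c none else 0) +
      (if (c = none ∨ ∃ w, nc E v w ∧ c = some w) then el X (v, c) * M c none else 0) := by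
    intro c
    rcases c with _ | w
    · have h0 : ¬ (none : Option V) = some v := fun h => Option.some_ne_none _ h.symm
      rw [if_neg h0, zero_add, if_pos (Or.inl rfl), xi_none]
    · by_cases hw : w = v
      · subst hw
        have h0 : ¬ ((some w : Option V) = none ∨
            ∃ w', nc E w w' ∧ (some w : Option V) = some w') := by
          rintro (h | ⟨w', h, he⟩)
          · exact Option.some_ne_none _ h
          · exact h.1 (Option.some.inj he)
        rw [xi_self, if_neg h0, if_pos rfl, one_mul, add_zero]
      · have h0 : ¬ (some w : Option V) = some v := fun hh => hw (Option.some.inj hh)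
        rw [if_neg h0, zero_add]
        by_cases ha : E.Adj v w
        · have h1 : ¬ ((some w : Option V) = none ∨
              ∃ w', nc E v w' ∧ (some w : Option V) = some w') := by
            rintro (h | ⟨w', h, he⟩)
            · exact Option.some_ne_none _ h
            · obtain rfl := Option.some.inj he
              exact h.2 ha
          rw [xi_adj E ha, zero_mul, if_neg h1]
        · have hn : nc E v w := ⟨fun h => hw h.symm, ha⟩
          rw [xi_nc E hn, if_pos (Or.inr ⟨w, hn, rfl⟩)]
  rw [Finset.sum_congr rfl fun c _ => key c, Finset.sum_add_distrib,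
    Finset.sum_ite_eq' Finset.univ (some v) fun c => M c none, if_pos (Finset.mem_univ _)]
  rfl

private theorem rM_ne (v : V) (r : Option V) (h : r ≠ some v) (g : X)
    (M : Matrix (Option V) (Option V) (RR V X)) : (rM E v g * M) r none = M r none := by
  rw [rM_apply, add_mul, Matrix.add_apply, one_mul, Matrix.mul_apply, Finset.sum_eq_zero, add_zero]
  intro d _
  rw [nM_apply, if_neg h, zero_mul]

private theorem rM_self (v : V) (g : X) (M : Matrix (Option V) (Option V) (RR V X)) :
    (rM E v g * M) (some v) none =
      eg V g * M (some v) none + (eg V g - 1) * yy E v M := by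
  rw [rM_apply, add_mul, Matrix.add_apply, one_mul, Matrix.mul_apply]
  have h : ∑ c, nM E v (eg V g - 1) (some v) c * M c none =
      (eg V g - 1) * (M (some v) none + yy E v M) := by
    rw [← xi_mul, Finset.mul_sum]
    refine Finset.sum_congr rfl fun c _ => ?_
    rw [nM_apply, if_pos rfl, mul_assoc]
  rw [h]
  noncomm_ring

/-! ### Coefficients -/

private theorem of_inv_mul (g : X) (p q : PM X (V × Option V)) :
    PM.of X _ g * p = q ↔ p = PM.of X _ g⁻¹ * q := by
  constructor
  · rintro rfl
    rw [← mul_assoc, ← map_mul, inv_mul_cancel, map_one, one_mul]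
  · rintro rfl
    rw [← mul_assoc, ← map_mul, mul_inv_cancel, map_one, one_mul]

private theorem eg_coeff (g : X) (m : RR V X) (p : PM X (V × Option V)) :
    (eg V g * m).coeff p = m.coeff (PM.of X _ g⁻¹ * p) := by
  unfold eg
  rw [MonoidAlgebra.coeff_single_mul_eq_mul_coeff _ fun q _ => of_inv_mul g q p, one_mul]

private theorem el_coeff (t t' : V × Option V) (m : RR V X) (y : X)
    (p : PM X (V × Option V)) :
    (el X t * m).coeff ⟨(y, t') :: p.l, p.x⟩ =
      (open Classical in if y = 1 ∧ t' = t then m.coeff p else 0) := by
  unfold el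
  by_cases h : y = 1 ∧ t' = t
  · rw [if_pos h, MonoidAlgebra.coeff_single_mul_eq_mul_coeff p, one_mul]
    intro q _
    rw [PM.tt_mul, h.1, h.2]
    constructor
    · intro hh
      have h1 := congrArg PM.l hh
      have h2 := congrArg PM.x hh
      exact PM.ext (List.cons.inj h1).2 h2
    · rintro rfl
      rfl
  · rw [if_neg h]
    apply MonoidAlgebra.coeff_single_mul_of_forall_mul_ne
    intro q hq
    rw [PM.tt_mul] at hq
    have h1 := (List.cons.inj (congrArg PM.l hq)).1
    exact h ⟨(Prod.mk.inj h1).1.symm, (Prod.mk.inj h1).2.symm⟩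

open Classical in
private theorem yy_coeff (v : V) (M : Matrix (Option V) (Option V) (RR V X)) (y : X)
    (c : Option V) (hc : c = none ∨ ∃ w, nc E v w ∧ c = some w) (p : PM X (V × Option V)) :
    (yy E v M).coeff ⟨(y, (v, c)) :: p.l, p.x⟩ = if y = 1 then (M c none).coeff p else 0 := by
  unfold yy
  rw [MonoidAlgebra.coeff_sum, Finsupp.finsetSum_apply, Finset.sum_eq_single c]
  · rw [if_pos hc, el_coeff]
    by_cases hy : y = 1
    · rw [if_pos ⟨hy, rfl⟩, if_pos hy]
    · rw [if_neg hy, if_neg fun h => hy h.1]
  · intro c' _ hne
    split_ifs with h1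
    · rw [el_coeff, if_neg]
      rintro ⟨-, h⟩
      exact hne (Prod.mk.inj h).2.symm
    · rw [MonoidAlgebra.coeff_zero]
      rfl
  · intro h
    exact absurd (Finset.mem_univ _) h

variable (ρ : (GraphProduct E fun _ : V => X) →* Matrix (Option V) (Option V) (RR V X))
  (hρ : ∀ v g, ρ (GraphProduct.of E (fun _ : V => X) v g) = rM E v g)

private theorem gev_cons (p : V × X) (ω : List (V × X)) :
    gev E X (p :: ω) = GraphProduct.of E (fun _ : V => X) p.1 p.2 * gev E X ω := by
  unfold gev
  rw [List.map_cons, List.prod_cons]

include hρ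

private theorem rho_cons (p : V × X) (ω : List (V × X)) :
    ρ (gev E X (p :: ω)) = rM E p.1 p.2 * ρ (gev E X ω) := by
  rw [gev_cons, map_mul, hρ]

private theorem rho_none (ω : List (V × X)) : ρ (gev E X ω) none none = 1 := by
  induction ω with
  | nil =>
    have : gev E X ([] : List (V × X)) = 1 := rfl
    rw [this, map_one, Matrix.one_apply_eq]
  | cons p ω ih =>
    rw [rho_cons E ρ hρ, rM_ne E _ _ (fun h => Option.some_ne_none _ h.symm), ih]

omit hρ

/-- the row of `L` -/
private def rL : List (V × X) → Option V
  | [] => none
  | p :: _ => some p.1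

/-- the word of `L` -/
private def uL : List (V × X) → PM X (V × Option V)
  | [] => 1
  | p :: L => ⟨(p.2, (p.1, rL L)) :: (uL L).l, (uL L).x⟩

private theorem rL_nc (p : V × X) (L : List (V × X))
    (hL : ((p :: L).map Prod.fst).IsChain (nc E)) :
    rL L = none ∨ ∃ w, nc E p.1 w ∧ rL L = some w := by
  cases L with
  | nil => exact Or.inl rfl
  | cons q L =>
    right
    rw [List.map_cons, List.map_cons, List.isChain_cons_cons] at hL
    exact ⟨q.1, hL.1, rfl⟩

include hρ

private theorem rho_coeff (ω : List (V × X)) :
    ∀ L : List (V × X), (L.map Prod.fst).IsChain (nc E) →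
      (ρ (gev E X ω) (rL L) none).coeff (uL L) = lcf ω L := by
  classical
  induction ω with
  | nil =>
    intro L hL
    have h0 : gev E X ([] : List (V × X)) = 1 := rfl
    cases L with
    | nil =>
      rw [h0, map_one]
      show ((1 : Matrix (Option V) (Option V) (RR V X)) none none).coeff 1 = lcf [] []
      rw [Matrix.one_apply_eq, MonoidAlgebra.one_def, MonoidAlgebra.coeff_single,
        Finsupp.single_eq_same, lcf]
    | cons p L =>
      rw [h0, map_one, lcf]
      show ((1 : Matrix (Option V) (Option V) (RR V X)) (some p.1) none).coeff _ = 0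
      rw [Matrix.one_apply_ne (Option.some_ne_none _), MonoidAlgebra.coeff_zero]
      rfl
  | cons p ω ih =>
    intro L hL
    cases L with
    | nil =>
      show (ρ (gev E X (p :: ω)) none none).coeff 1 = lcf (p :: ω) []
      rw [rho_none E ρ hρ, MonoidAlgebra.one_def, MonoidAlgebra.coeff_single,
        Finsupp.single_eq_same, lcf]
    | cons q L =>
      rw [rho_cons E ρ hρ, lcf]
      by_cases hq : q.1 = p.1
      · rw [if_pos hq]
        have hL' : (L.map Prod.fst).IsChain (nc E) := hL.tail
        have hn := rL_nc E q L hL
        have e1 : rL (q :: L) = some p.1 := by rw [← hq]; rfl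
        have e2 : uL (q :: L) = ⟨(q.2, (p.1, rL L)) :: (uL L).l, (uL L).x⟩ := by
          rw [← hq]; rfl
        rw [hq] at hn
        have h5 : ∀ g : X, (yy E p.1 (ρ (gev E X ω))).coeff
            ⟨(g, (p.1, rL L)) :: (uL L).l, (uL L).x⟩ = if g = 1 then lcf ω L else 0 := by
          intro g
          rw [yy_coeff E p.1 _ g _ hn, ih L hL']
        have h6 : ∀ g : X, PM.of X (V × Option V) g⁻¹ *
            (⟨(q.2, (p.1, rL L)) :: (uL L).l, (uL L).x⟩ : PM X (V × Option V)) =
            ⟨(g⁻¹ * q.2, (p.1, rL L)) :: (uL L).l, (uL L).x⟩ := fun g => rfl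
        rw [e1, e2, rM_self, MonoidAlgebra.coeff_add, Finsupp.add_apply, sub_mul,
          MonoidAlgebra.coeff_sub, Finsupp.sub_apply, eg_coeff, eg_coeff, h6, one_mul, h5, h5, sub_mul]
        congr 1
        · have h1 := ih ((p.1, p.2⁻¹ * q.2) :: L) (by
            cases L with
            | nil => exact List.isChain_singleton _
            | cons q' L =>
              rw [List.map_cons, List.map_cons, List.isChain_cons_cons] at hL ⊢
              rw [hq] at hL
              exact hL)
          exact h1
        · congr 1
          · by_cases h7 : q.2 = p.2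
            · rw [if_pos h7, if_pos (by rw [h7, inv_mul_cancel]), one_mul]
            · rw [if_neg h7, if_neg (fun h8 => h7 (inv_mul_eq_one.1 h8).symm), zero_mul]
          · by_cases h7 : q.2 = 1
            · rw [if_pos h7, if_pos h7, one_mul]
            · rw [if_neg h7, if_neg h7, zero_mul]
      · rw [if_neg hq, ← ih (q :: L) hL]
        have e1 : rL (q :: L) = some q.1 := rfl
        rw [e1, rM_ne E p.1 (some q.1) (fun h => hq (Option.some.inj h))]

end

theorem exists_rho2 {V : Type u} [Finite V] (E : SimpleGraph V) (X : Type u) [Group X] :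
    ∃ (I : Type u) (_ : Fintype I) (_ : DecidableEq I)
      (ρ : (GraphProduct E fun _ : V => X) →*
        Matrix I I (MonoidAlgebra ℤ (PM X (V × Option V)))),
      ∀ L : List (V × X), (L.map Prod.fst).IsChain (nc E) →
        ∃ (a b : I) (u : PM X (V × Option V)), ∀ ω : List (V × X),
          (ρ (gev E X ω) a b).coeff u = lcf ω L := by
  classical
  let _ : Fintype V := Fintype.ofFinite V
  obtain ⟨ρ, hρ⟩ := GraphProduct.exists_lift E (fun _ : V => X) (rM E)
    fun v w h g g' => rM_commute E v w h g g'
  exact ⟨Option V, inferInstance, inferInstance, ρ, fun L hL =>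
    ⟨rL L, none, uL L, fun ω => rho_coeff E ρ hρ ω L hL⟩⟩

end Pool.Agent.H36.GY
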