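import Pool.Agent.H36.GY.Base
import Pool.Agent.H66.NCL.PBasic

/-!
# Project GY: `P` for the monoids with a triangular representation
-/

set_option autoImplicit false

namespace Pool.Agent.H36.GY

open Pool.Agent.H66.NCL Pool.Agent.H36.OX Pool.Agent.H36.GX

universe u v w

/-- the coefficient map `ℤ → A` on matrices over monoid algebras -/
private noncomputable def coT (A : Type u) [Ring A] (Q : Type u) [Monoid Q] (J : Type)
    [Fintype J] [DecidableEq J] : Matrix J J (MonoidAlgebra ℤ Q) →+* Matrix J J (MonoidAlgebra A Q) :=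
  (MonoidAlgebra.mapRingHom Q (Int.castRingHom A)).mapMatrix

private theorem coT_coeff (A : Type u) [Ring A] (Q : Type u) [Monoid Q] (J : Type)
    [Fintype J] [DecidableEq J] (m : Matrix J J (MonoidAlgebra ℤ Q)) (a b : J) (q : Q) :
    (coT A Q J m a b).coeff q = (((m a b).coeff q : ℤ) : A) := by
  unfold coT
  rw [RingHom.mapMatrix_apply, Matrix.map_apply, MonoidAlgebra.coeff_mapRingHom]
  rfl

/-- the scalar matrices -/
private noncomputable def scT (A : Type u) [Ring A] (Q : Type u) [Monoid Q] (J : Type)
    [Fintype J] [DecidableEq J] : A →+* Matrix J J (MonoidAlgebra A Q) :=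
  (Matrix.scalar J).comp MonoidAlgebra.singleOneRingHom

private theorem scT_mul (A : Type u) [Ring A] (Q : Type u) [Monoid Q] (J : Type)
    [Fintype J] [DecidableEq J] (c : A) (m : Matrix J J (MonoidAlgebra A Q)) (a b : J) (q : Q) :
    ((scT A Q J c * m) a b).coeff q = c * (m a b).coeff q := by
  unfold scT
  rw [RingHom.comp_apply, Matrix.scalar_apply, Matrix.diagonal_mul]
  exact MonoidAlgebra.coeff_single_one_mul _ _ _

private theorem mul_scT (A : Type u) [Ring A] (Q : Type u) [Monoid Q] (J : Type)
    [Fintype J] [DecidableEq J] (c : A) (m : Matrix J J (MonoidAlgebra A Q)) (a b : J) (q : Q) :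
    ((m * scT A Q J c) a b).coeff q = (m a b).coeff q * c := by
  unfold scT
  rw [RingHom.comp_apply, Matrix.scalar_apply, Matrix.mul_diagonal]
  exact MonoidAlgebra.coeff_mul_single_one _ _ _

private theorem scT_comm (A : Type u) [Ring A] (Q : Type u) [Monoid Q] (J : Type)
    [Fintype J] [DecidableEq J] (c : A) (m : Matrix J J (MonoidAlgebra ℤ Q)) :
    Commute (scT A Q J c) (coT A Q J m) := by
  refine Matrix.ext fun a b => ?_
  apply MonoidAlgebra.coeff_injective
  refine Finsupp.ext fun q => ?_
  rw [scT_mul, mul_scT, coT_coeff]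
  exact ((((m a b).coeff q)).cast_commute c).symm

theorem Tri.P {A : Type u} [Ring A] {C : (G : Type u) → [Group G] → Prop} (hG : Good A C)
    {S : Type u} [Monoid S] (h : Tri C S) : P.{u, u} (MonoidAlgebra A S) := by
  obtain ⟨Q, _, D, _, _, a, hQ, ha⟩ := h
  let ρA : S →* Matrix D D (MonoidAlgebra A Q) := ((coT A Q D : _ →+* _) : _ →* _).comp a
  let Ψ : MonoidAlgebra A S →+* Matrix D D (MonoidAlgebra A Q) :=
    MonoidAlgebra.liftNCRingHom (scT A Q D) ρA fun c w => scT_comm A _ D c (a w)
  have hinj : Function.Injective Ψ := by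
    rw [injective_iff_map_eq_zero]
    intro f hf
    by_contra hne
    have hsupp : f.coeff.support.Nonempty := by
      rw [Finsupp.support_nonempty_iff]
      intro h0
      exact hne (MonoidAlgebra.coeff_eq_zero.mp h0)
    obtain ⟨s, hs, i, j, q, hunit, hzero⟩ := ha f.coeff.support hsupp
    let χ : Matrix D D (MonoidAlgebra A Q) →+ A :=
      { toFun := fun m => (m i j).coeff q
        map_zero' := by simp
        map_add' := fun g g' => by
          rw [Matrix.add_apply, MonoidAlgebra.coeff_add, Finsupp.add_apply] }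
    have hΨ1 : ∀ (w : S) (c : A),
        χ (Ψ (MonoidAlgebra.single w c)) = c * (((a w i j).coeff q : ℤ) : A) := by
      intro w c
      have h1 : Ψ (MonoidAlgebra.single w c) = scT A Q D c * coT A Q D (a w) :=
        MonoidAlgebra.liftNCRingHom_single _ _ _ _ _
      rw [h1]
      have h2 := scT_mul A Q D c (coT A Q D (a w)) i j q
      rw [coT_coeff] at h2
      exact h2
    have hΨ : χ (Ψ f) = f.coeff s * (((a s i j).coeff q : ℤ) : A) := by
      have h1 : f = ∑ g ∈ f.coeff.support, MonoidAlgebra.single g (f.coeff g) :=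
        (MonoidAlgebra.sum_coeff_single f).symm
      have h2 : χ (Ψ f) = ∑ g ∈ f.coeff.support, χ (Ψ (MonoidAlgebra.single g (f.coeff g))) := by
        conv_lhs => rw [h1]
        rw [map_sum, map_sum]
      rw [h2, Finset.sum_eq_single s]
      · exact hΨ1 s _
      · intro s' hs' hne'
        rw [hΨ1, hzero s' hs' hne', Int.cast_zero, mul_zero]
      · intro hh
        exact absurd hs hh
    rw [hf, map_zero] at hΨ
    have hu : IsUnit ((((a s i j).coeff q : ℤ) : A)) := by
      have := hunit.map (Int.castRingHom A)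
      exact this
    have h0 : f.coeff s = 0 := by
      have := hu.mul_left_eq_zero.mp hΨ.symm
      exact this
    exact (Finsupp.mem_support_iff.mp hs) h0
  exact P.of_injective Ψ hinj (P.matrix (hG Q hQ) D)

end Pool.Agent.H36.GY
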