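import Pool.Agent.H36.GY.TriA
import Pool.Agent.H36.GY.TriP
import Pool.Agent.H36.GY.PmT
import Pool.Agent.H36.GY.PmE
import Pool.Agent.H36.GY.FwD
import Pool.Agent.H36.GY.FwR
import Pool.Agent.H36.GY.Rho
import Pool.Agent.H36.GX.Cls

/-!
# Project GY: graph products of groups with a representation
-/

set_option autoImplicit false

namespace Pool.Agent.H36.GY

open Pool.Agent.H66.NCL Pool.Agent.H36.OX Pool.Agent.H36.GX

universe u

theorem Tri.pm {C : (G : Type u) → [Group G] → Prop} (hC : ∀ (G : Type u) [Group G], TFSolv G → C G)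
    {X : Type u} [Monoid X] (h : Tri C X) (T : Type u) [Finite T] : Tri C (PM X T) := by
  obtain ⟨Q, _, D, _, _, a, hQ, ha⟩ := h
  obtain ⟨a', ha'⟩ := exists_isTri_pm a ha T
  obtain ⟨Q', _, f, hQ', hf⟩ := exists_pm_emb hC hQ (T × D × D)
  exact Tri.of_isTri a' ha' hQ' f hf

theorem Tri.freeWreath {C : (G : Type u) → [Group G] → Prop}
    (hC : ∀ (G : Type u) [Group G], TFSolv G → C G) {G N Y : Type u} [Group G] [Group N]
    [MulAction N Y] (hG : It C G) (hN : TFSolv N) : Tri C (FreeWreath G N Y) := by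
  obtain ⟨Q, _, i, j, x, π, δ, Pos, Q', _, f, h, hQ', hf⟩ := exists_isFw hC (Y := Y) hG hN
  obtain ⟨a, ha⟩ := exists_repFw h
  exact Tri.of_isTri a ha hQ' f hf

theorem Good.tri {A : Type u} [Ring A] {C : (G : Type u) → [Group G] → Prop}
    (hC : ∀ (G : Type u) [Group G], TFSolv G → C G) (h : Good A C) :
    Good A (fun G _ => Tri C G) := by
  intro G _ hG
  obtain ⟨V, _, E, U, _, hU, ⟨φ⟩⟩ := It.flat hG
  refine P_submonoidR φ.toMonoidHom φ.injective ?_
  obtain ⟨c, hc⟩ := GraphProduct.exists_const E U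
  refine P_submonoidR c hc ?_
  obtain ⟨I, _, _, ρ, hρ⟩ := exists_rho2 E (∀ v, U v)
  exact P_gpR E (∀ v, U v) (PM (∀ v, U v) (V × Option V))
    (fun k => (Tri.pow hC (Tri.pm hC (Tri.pi hC U hU) (V × Option V)) k).P h) I ρ hρ

end Pool.Agent.H36.GY
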