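import Pool.Agent.H36.GY.Base
import Pool.Agent.H36.GX.GP
import Pool.Agent.H36.GX.Pos
import Pool.Agent.H36.GX.Flat

/-!
# Project GY: representations as in `IsTri`, first properties
-/

set_option autoImplicit false

namespace Pool.Agent.H36.GY

open Pool.Agent.H66.NCL Pool.Agent.H36.OX Pool.Agent.H36.GX

universe u v w

private theorem md_coeff {Q : Type u} {Q' : Type v} [Monoid Q] [Monoid Q'] (f : Q →* Q')
    (hf : Function.Injective f) (x : MonoidAlgebra ℤ Q) (q : Q) :
    (MonoidAlgebra.mapDomainRingHom ℤ f x).coeff (f q) = x.coeff q := by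
  induction x using MonoidAlgebra.induction_linear with
  | zero => simp
  | add a b ha hb =>
    rw [map_add, MonoidAlgebra.coeff_add, Finsupp.add_apply, ha, hb, MonoidAlgebra.coeff_add,
      Finsupp.add_apply]
  | single w r =>
    classical
    rw [MonoidAlgebra.mapDomainRingHom_apply, MonoidAlgebra.mapDomain_single,
      MonoidAlgebra.coeff_single, MonoidAlgebra.coeff_single, Finsupp.single_apply,
      Finsupp.single_apply]
    by_cases h : w = q
    · rw [if_pos h, if_pos (congrArg f h)]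
    · rw [if_neg h, if_neg fun h' => h (hf h')]

theorem IsTri.map {S Q Q' : Type u} {D : Type} [Monoid S] [Monoid Q] [Monoid Q'] [Fintype D]
    [DecidableEq D] {a : S →* Matrix D D (MonoidAlgebra ℤ Q)} (h : IsTri a) (f : Q →* Q')
    (hf : Function.Injective f) : IsTri (((MonoidAlgebra.mapDomainRingHom ℤ f).mapMatrix :
      Matrix D D (MonoidAlgebra ℤ Q) →+* Matrix D D (MonoidAlgebra ℤ Q')).toMonoidHom.comp a) := by
  intro F hF
  obtain ⟨s, hs, i, j, q, hu, h0⟩ := h F hF
  refine ⟨s, hs, i, j, f q, ?_, fun s' hs' hne => ?_⟩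
  · change IsUnit ((MonoidAlgebra.mapDomainRingHom ℤ f (a s i j)).coeff (f q))
    rw [md_coeff f hf]
    exact hu
  · change (MonoidAlgebra.mapDomainRingHom ℤ f (a s' i j)).coeff (f q) = 0
    rw [md_coeff f hf]
    exact h0 s' hs' hne

theorem Tri.of_isTri {C : (G : Type u) → [Group G] → Prop} {S Q Q' : Type u} {D : Type} [Monoid S]
    [Monoid Q] [Group Q'] [Fintype D] [DecidableEq D] (a : S →* Matrix D D (MonoidAlgebra ℤ Q))
    (h : IsTri a) (hQ : It C Q') (f : Q →* Q') (hf : Function.Injective f) : Tri C S :=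
  ⟨Q', inferInstance, D, inferInstance, inferInstance, _, hQ, h.map f hf⟩

/-- the one dimensional representation -/
private noncomputable def rep1 (X : Type u) [Group X] :
    X →* Matrix Unit Unit (MonoidAlgebra ℤ X) where
  toFun s := Matrix.of fun _ _ => MonoidAlgebra.single s 1
  map_one' := by
    ext1 i j
    rw [Matrix.of_apply, Matrix.one_apply, if_pos (Subsingleton.elim i j)]
    rfl
  map_mul' s t := by
    ext1 i j
    rw [Matrix.mul_apply, Fintype.sum_unique, Matrix.of_apply, Matrix.of_apply, Matrix.of_apply,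
      MonoidAlgebra.single_mul_single, mul_one]

theorem Tri.of_it {C : (G : Type u) → [Group G] → Prop} {X : Type u} [Group X] (h : It C X) :
    Tri C X := by
  classical
  refine ⟨X, inferInstance, Unit, inferInstance, inferInstance, rep1 X, h, fun F hF => ?_⟩
  obtain ⟨s, hs⟩ := hF
  refine ⟨s, hs, (), (), s, ?_, fun s' _ hne => ?_⟩
  · change IsUnit ((MonoidAlgebra.single s (1 : ℤ)).coeff s)
    rw [MonoidAlgebra.coeff_single, Finsupp.single_apply, if_pos rfl]
    exact isUnit_one
  · change (MonoidAlgebra.single s' (1 : ℤ)).coeff s = 0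
    rw [MonoidAlgebra.coeff_single, Finsupp.single_apply, if_neg hne]

theorem Tri.sub {C : (G : Type u) → [Group G] → Prop} {S S' : Type u} [Monoid S] [Monoid S']
    (h : Tri C S') (f : S →* S') (hf : Function.Injective f) : Tri C S := by
  classical
  obtain ⟨Q, iQ, D, iD, dD, a, hQ, ha⟩ := h
  refine ⟨Q, iQ, D, iD, dD, a.comp f, hQ, fun F hF => ?_⟩
  obtain ⟨s, hs, i, j, q, hu, h0⟩ := ha (F.image f) (hF.image f)
  obtain ⟨t, ht, rfl⟩ := Finset.mem_image.1 hs
  exact ⟨t, ht, i, j, q, hu, fun s' hs' hne =>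
    h0 (f s') (Finset.mem_image_of_mem f hs') fun h => hne (hf h)⟩

section Prod

variable {S S' : Type u} {Q Q' : Type v} [Monoid S] [Monoid S'] [Monoid Q] [Monoid Q']

/-- first factor -/
private noncomputable def prA (Q Q' : Type v) [Monoid Q] [Monoid Q'] :
    MonoidAlgebra ℤ Q →+* MonoidAlgebra ℤ (Q × Q') :=
  MonoidAlgebra.mapDomainRingHom ℤ (MonoidHom.inl Q Q')

/-- second factor -/
private noncomputable def prB (Q Q' : Type v) [Monoid Q] [Monoid Q'] :
    MonoidAlgebra ℤ Q' →+* MonoidAlgebra ℤ (Q × Q') :=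
  MonoidAlgebra.mapDomainRingHom ℤ (MonoidHom.inr Q Q')

private theorem prA_single (w : Q) (r : ℤ) :
    prA Q Q' (MonoidAlgebra.single w r) = MonoidAlgebra.single (w, 1) r := by
  unfold prA
  rw [MonoidAlgebra.mapDomainRingHom_apply, MonoidAlgebra.mapDomain_single]
  rfl

private theorem prB_single (w : Q') (r : ℤ) :
    prB Q Q' (MonoidAlgebra.single w r) = MonoidAlgebra.single (1, w) r := by
  unfold prB
  rw [MonoidAlgebra.mapDomainRingHom_apply, MonoidAlgebra.mapDomain_single]
  rfl

private theorem pr_comm (x : MonoidAlgebra ℤ Q) (y : MonoidAlgebra ℤ Q') :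
    prA Q Q' x * prB Q Q' y = prB Q Q' y * prA Q Q' x := by
  induction x using MonoidAlgebra.induction_linear with
  | zero => simp
  | add a b ha hb => rw [map_add, add_mul, mul_add, ha, hb]
  | single w r =>
    induction y using MonoidAlgebra.induction_linear with
    | zero => simp
    | add a b ha hb => rw [map_add, add_mul, mul_add, ha, hb]
    | single v s =>
      rw [prA_single, prB_single, MonoidAlgebra.single_mul_single,
        MonoidAlgebra.single_mul_single, Prod.mk_mul_mk, Prod.mk_mul_mk, mul_one, one_mul, one_mul,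
        mul_one, mul_comm r s]

private theorem pr_coeff (x : MonoidAlgebra ℤ Q) (y : MonoidAlgebra ℤ Q') (q : Q) (q' : Q') :
    (prA Q Q' x * prB Q Q' y).coeff (q, q') = x.coeff q * y.coeff q' := by
  induction x using MonoidAlgebra.induction_linear with
  | zero => simp
  | add a b ha hb =>
    rw [map_add, add_mul, MonoidAlgebra.coeff_add, Finsupp.add_apply, ha, hb,
      MonoidAlgebra.coeff_add, Finsupp.add_apply, add_mul]
  | single w r =>
    induction y using MonoidAlgebra.induction_linear with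
    | zero => simp
    | add a b ha hb =>
      rw [map_add, mul_add, MonoidAlgebra.coeff_add, Finsupp.add_apply, ha, hb,
        MonoidAlgebra.coeff_add, Finsupp.add_apply, mul_add]
    | single v s =>
      classical
      rw [prA_single, prB_single, MonoidAlgebra.single_mul_single, Prod.mk_mul_mk, mul_one,
        one_mul, MonoidAlgebra.coeff_single, MonoidAlgebra.coeff_single,
        MonoidAlgebra.coeff_single, Finsupp.single_apply, Finsupp.single_apply,
        Finsupp.single_apply]
      by_cases h1 : w = q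
      · by_cases h2 : v = q'
        · rw [if_pos h1, if_pos h2, if_pos (Prod.ext h1 h2)]
        · rw [if_neg h2, mul_zero, if_neg fun h => h2 (congrArg Prod.snd h)]
      · rw [if_neg h1, zero_mul, if_neg fun h => h1 (congrArg Prod.fst h)]

variable {D D' : Type} [Fintype D] [DecidableEq D] [Fintype D'] [DecidableEq D']

/-- the tensor product of the representations -/
private noncomputable def prRho (ρ : S →* Matrix D D (MonoidAlgebra ℤ Q))
    (ρ' : S' →* Matrix D' D' (MonoidAlgebra ℤ Q')) :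
    S × S' →* Matrix (D × D') (D × D') (MonoidAlgebra ℤ (Q × Q')) where
  toFun g := Matrix.of fun a b => prA Q Q' (ρ g.1 a.1 b.1) * prB Q Q' (ρ' g.2 a.2 b.2)
  map_one' := by
    ext1 a b
    rw [Matrix.of_apply, Prod.fst_one, Prod.snd_one, map_one, map_one, Matrix.one_apply,
      Matrix.one_apply, Matrix.one_apply]
    by_cases h1 : a.1 = b.1
    · by_cases h2 : a.2 = b.2
      · rw [if_pos h1, if_pos h2, if_pos (Prod.ext h1 h2), map_one, map_one, one_mul]
      · rw [if_neg h2, map_zero, mul_zero, if_neg (fun h => h2 (congrArg Prod.snd h))]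
    · rw [if_neg h1, map_zero, zero_mul, if_neg (fun h => h1 (congrArg Prod.fst h))]
  map_mul' g h := by
    ext1 a b
    rw [Matrix.of_apply, Prod.fst_mul, Prod.snd_mul, map_mul, map_mul, Matrix.mul_apply,
      Matrix.mul_apply, Matrix.mul_apply, map_sum, map_sum, Finset.sum_mul_sum,
      ← Finset.univ_product_univ, Finset.sum_product]
    refine Finset.sum_congr rfl fun i _ => Finset.sum_congr rfl fun j _ => ?_
    rw [Matrix.of_apply, Matrix.of_apply, map_mul, map_mul]
    have := pr_comm (ρ h.1 i b.1) (ρ' g.2 a.2 j)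
    calc prA Q Q' (ρ g.1 a.1 i) * prA Q Q' (ρ h.1 i b.1) *
          (prB Q Q' (ρ' g.2 a.2 j) * prB Q Q' (ρ' h.2 j b.2))
        = prA Q Q' (ρ g.1 a.1 i) * (prA Q Q' (ρ h.1 i b.1) * prB Q Q' (ρ' g.2 a.2 j)) *
          prB Q Q' (ρ' h.2 j b.2) := by simp only [mul_assoc]
      _ = _ := by
        rw [this]
        simp only [mul_assoc]

private theorem isTri_prRho {ρ : S →* Matrix D D (MonoidAlgebra ℤ Q)}
    {ρ' : S' →* Matrix D' D' (MonoidAlgebra ℤ Q')} (h : IsTri ρ) (h' : IsTri ρ') :
    IsTri (prRho ρ ρ') := by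
  classical
  intro F hF
  obtain ⟨s, hs, i, j, q, hu, h0⟩ := h (F.image Prod.fst) (hF.image Prod.fst)
  obtain ⟨⟨s₁, s₂⟩, hm, rfl⟩ := Finset.mem_image.1 hs
  obtain ⟨s', hs', i', j', q', hu', h0'⟩ := h' ((F.filter fun p => p.1 = s₁).image Prod.snd)
    (⟨s₂, Finset.mem_image.2 ⟨(s₁, s₂), Finset.mem_filter.2 ⟨hm, rfl⟩, rfl⟩⟩)
  obtain ⟨⟨t₁, t₂⟩, hm', rfl⟩ := Finset.mem_image.1 hs'
  obtain ⟨hm1, rfl⟩ := Finset.mem_filter.1 hm'
  refine ⟨(t₁, t₂), hm1, (i, i'), (j, j'), (q, q'), ?_, ?_⟩
  · change IsUnit ((prA Q Q' (ρ t₁ i j) * prB Q Q' (ρ' t₂ i' j')).coeff (q, q'))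
    rw [pr_coeff]
    exact hu.mul hu'
  · rintro ⟨r₁, r₂⟩ hr hne
    change (prA Q Q' (ρ r₁ i j) * prB Q Q' (ρ' r₂ i' j')).coeff (q, q') = 0
    rw [pr_coeff]
    by_cases h1 : r₁ = t₁
    · subst h1
      rw [h0' r₂ (Finset.mem_image.2 ⟨(r₁, r₂), Finset.mem_filter.2 ⟨hr, rfl⟩, rfl⟩)
        (fun h2 => hne (Prod.ext rfl h2)), mul_zero]
    · rw [h0 r₁ (Finset.mem_image.2 ⟨(r₁, r₂), hr, rfl⟩) h1, zero_mul]

end Prod

/-- a family of two groups -/
private def two (Q Q' : Type u) : ULift.{u} Bool → Type u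
  | ⟨true⟩ => Q
  | ⟨false⟩ => Q'

private instance instTwo (Q Q' : Type u) [Group Q] [Group Q'] :
    ∀ b, Group (two Q Q' b)
  | ⟨true⟩ => inferInstanceAs (Group Q)
  | ⟨false⟩ => inferInstanceAs (Group Q')

private def toTwo (Q Q' : Type u) [Group Q] [Group Q'] : Q × Q' →* ∀ b, two Q Q' b where
  toFun x
    | ⟨true⟩ => x.1
    | ⟨false⟩ => x.2
  map_one' := by
    funext b
    obtain ⟨_ | _⟩ := b <;> rfl
  map_mul' x y := by
    funext b
    obtain ⟨_ | _⟩ := b <;> rfl

private theorem toTwo_inj (Q Q' : Type u) [Group Q] [Group Q'] :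
    Function.Injective (toTwo Q Q') := by
  intro x y h
  exact Prod.ext (congrFun h ⟨true⟩) (congrFun h ⟨false⟩)

theorem Tri.prod {C : (G : Type u) → [Group G] → Prop} {S S' : Type u} [Monoid S] [Monoid S']
    (h : Tri C S) (h' : Tri C S') : Tri C (S × S') := by
  obtain ⟨Q, iQ, D, iD, dD, a, hQ, ha⟩ := h
  obtain ⟨Q', iQ', D', iD', dD', a', hQ', ha'⟩ := h'
  obtain ⟨f, hf⟩ := exists_pi_gp (two Q Q')
  refine Tri.of_isTri (prRho a a') (isTri_prRho ha ha') (Q' := GraphProduct ⊤ (two Q Q')) ?_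
    (f.comp (toTwo Q Q')) (hf.comp (toTwo_inj Q Q'))
  refine It.prod _ _ _ ?_
  rintro ⟨_ | _⟩
  · exact hQ'
  · exact hQ

/-- for the empty family: the trivial group is in `C` -/
theorem Tri.pi {C : (G : Type u) → [Group G] → Prop} (hC : ∀ (G : Type u) [Group G], TFSolv G → C G)
    {V : Type u} [Finite V] (G : V → Type u) [∀ v, Monoid (G v)] (h : ∀ v, Tri C (G v)) :
    Tri C (∀ v, G v) := by
  refine Finite.induction_empty_option (P := fun V : Type u => ∀ (G : V → Type u)
    [∀ v, Monoid (G v)], (∀ v, Tri C (G v)) → Tri C (∀ v, G v)) ?_ ?_ ?_ V G h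
  · intro α β e ih G _ h
    refine (ih (fun a => G (e a)) fun a => h _).sub
      { toFun := fun x a => x (e a)
        map_one' := rfl
        map_mul' := fun _ _ => rfl } ?_
    intro x y hxy
    funext b
    obtain ⟨a, rfl⟩ := e.surjective b
    exact congrFun hxy a
  · intro G _ _
    refine (Tri.of_it (It.base PUnit.{u + 1} (hC _ (TFSolv.triv _ fun x => rfl)))).sub
      (1 : (∀ v, G v) →* PUnit.{u + 1}) ?_
    intro x y _
    funext v
    exact v.elim
  · intro α _ ih G _ h
    refine (Tri.prod (h none) (ih (fun a => G (some a)) fun a => h _)).sub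
      { toFun := fun x => (x none, fun a => x (some a))
        map_one' := rfl
        map_mul' := fun _ _ => rfl } ?_
    intro x y hxy
    funext o
    cases o with
    | none => exact congrArg Prod.fst hxy
    | some a => exact congrFun (congrArg Prod.snd hxy) a

theorem Tri.pow {C : (G : Type u) → [Group G] → Prop} (hC : ∀ (G : Type u) [Group G], TFSolv G → C G)
    {S : Type u} [Monoid S] (h : Tri C S) (k : ℕ) : Tri C (Fin k → S) :=
  (Tri.pi hC (fun _ : ULift.{u} (Fin k) => S) fun _ => h).sub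
    { toFun := fun x i => x i.down
      map_one' := rfl
      map_mul' := fun _ _ => rfl }
    (fun x y hxy => funext fun i => congrFun hxy ⟨i⟩)

end Pool.Agent.H36.GY
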